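import Mathlib

open Filter Topology Finset

namespace Pool.Agent.Results.MP_6ea370_an.EntropySet

/-- The shift action of `G` on `A^G`: `(t x)_s = x_{t⁻¹ s}`. -/
def shift {G A : Type} [Group G] (t : G) (x : G → A) : G → A := fun s => x (t⁻¹ * s)

/-- A pattern: an element of `A^F` with `F ⊂ G` finite. -/
structure Pattern (G A : Type) where
  dom : Finset G
  val : dom → A

/-- `X ⊆ A^G` is a shift of finite type: for a finite set `P` of patterns, `X` is the set of all
`x` such that no restriction `(t x)|_F` belongs to `P`. -/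
def IsSFT {G A : Type} [Group G] (X : Set (G → A)) : Prop :=
  ∃ P : Set (Pattern G A), P.Finite ∧
    X = {x | ∀ t : G, ∀ p ∈ P, (fun s : p.dom => shift t x s) ≠ p.val}

/-- `L_E(X) = {x|_E : x ∈ X}`. -/
def language {G A : Type} (E : Finset G) (X : Set (G → A)) : Set (E → A) :=
  {w | ∃ x ∈ X, ∀ s : E, w s = x s}

/-- A sofic approximation of `G`: nonempty finite sets `K n` and maps `π n : G → Sym(K n)` which
are asymptotically multiplicative and asymptotically free. -/
structure SoficApprox (G : Type) [Group G] where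
  K : ℕ → Type
  finite : ∀ n, Finite (K n)
  nonempty : ∀ n, Nonempty (K n)
  π : ∀ n, G → Equiv.Perm (K n)
  mul_tendsto : ∀ s t : G, Tendsto (fun n =>
    ((({k | π n (s * t) k = π n s (π n t k)} : Set (K n)).ncard : ℝ) / Nat.card (K n)))
      atTop (𝓝 1)
  free_tendsto : ∀ s : G, s ≠ 1 → Tendsto (fun n =>
    ((({k | π n s k ≠ k} : Set (K n)).ncard : ℝ) / Nat.card (K n))) atTop (𝓝 1)

/-- The points `k` at which the labelling `ω` shows a pattern of `L_E(X)`. -/
def goodPoints {G A K : Type} [Group G] (π : G → Equiv.Perm K) (X : Set (G → A))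
    (E : Finset G) (ω : K → A) : Set K :=
  {k | (fun s : E => ω (π (s : G)⁻¹ k)) ∈ language E X}

/-- `Ω(E, δ)`: the labellings which are good at at least `(1 - δ)|K|` points. -/
def microstates {G A K : Type} [Group G] (π : G → Equiv.Perm K) (X : Set (G → A))
    (E : Finset G) (δ : ℝ) : Set (K → A) :=
  {ω | (1 - δ) * Nat.card K ≤ ((goodPoints π X E ω).ncard : ℝ)}

/-- `(1/k) log c`, with `log 0 = -∞`. -/
noncomputable def logCount (c k : ℕ) : EReal :=
  if c = 0 then ⊥ else ((Real.log c / k : ℝ) : EReal)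

/-- The sofic entropy `h_Σ(X)`. -/
noncomputable def entropy {G A : Type} [Group G] (S : SoficApprox G) (X : Set (G → A)) : EReal :=
  ⨅ E : Finset G, ⨅ δ : {δ : ℝ // 0 < δ},
    limsup (fun n => logCount (microstates (S.π n) X E δ).ncard (Nat.card (S.K n))) atTop

/-- The set `E_r` of all values `h_Σ(X)`, where `Σ` is a sofic approximation of the free group of
rank `r` and `X` is a shift of finite type over some finite alphabet `A`. -/
def entropySet (r : ℕ) : Set EReal :=
  {h | ∃ (A : Type) (_ : Finite A) (S : SoficApprox (FreeGroup (Fin r)))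
    (X : Set (FreeGroup (Fin r) → A)), IsSFT X ∧ entropy S X = h}

/-- The same set, with `X` required to be nonempty. -/
def entropySetNonempty (r : ℕ) : Set EReal :=
  {h | ∃ (A : Type) (_ : Finite A) (S : SoficApprox (FreeGroup (Fin r)))
    (X : Set (FreeGroup (Fin r) → A)), IsSFT X ∧ X.Nonempty ∧ entropy S X = h}

section basic
variable {G A K : Type} [Group G]

lemma count_le [Finite A] [Finite K] (π : G → Equiv.Perm K) (X : Set (G → A)) (E : Finset G)
    (δ : ℝ) : (microstates π X E δ).ncard ≤ Nat.card A ^ Nat.card K := by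
  have h1 : (microstates π X E δ).ncard ≤ (Set.univ : Set (K → A)).ncard :=
    Set.ncard_le_ncard (Set.subset_univ _) (Set.toFinite _)
  rw [Set.ncard_univ, Nat.card_fun] at h1
  exact h1

lemma logCount_le [Finite A] [Finite K] [Nonempty K] (π : G → Equiv.Perm K) (X : Set (G → A))
    (E : Finset G) (δ : ℝ) :
    logCount (microstates π X E δ).ncard (Nat.card K) ≤ ((Real.log (Nat.card A) : ℝ) : EReal) := by
  unfold logCount
  split_ifs with h
  · exact bot_le
  · rw [EReal.coe_le_coe_iff]
    have hK : (0:ℝ) < Nat.card K := by exact_mod_cast Nat.card_pos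
    rw [div_le_iff₀ hK]
    have h1 := count_le π X E δ
    have h2 : ((microstates π X E δ).ncard : ℝ) ≤ (Nat.card A : ℝ) ^ Nat.card K := by
      exact_mod_cast h1
    have h3 : (0:ℝ) < ((microstates π X E δ).ncard : ℝ) := by
      exact_mod_cast Nat.pos_of_ne_zero h
    have h4 := Real.log_le_log h3 h2
    rw [Real.log_pow] at h4
    linarith

lemma logCount_nonneg_or (c k : ℕ) : logCount c k = ⊥ ∨ 0 ≤ logCount c k := by
  unfold logCount
  split_ifs with h
  · left; rfl
  · right
    rw [← EReal.coe_zero, EReal.coe_le_coe_iff]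
    have : (1:ℝ) ≤ c := by exact_mod_cast Nat.one_le_iff_ne_zero.2 h
    have := Real.log_nonneg this
    positivity

lemma limsup_bot_or (u : ℕ → EReal) (hu : ∀ n, u n = ⊥ ∨ 0 ≤ u n) :
    limsup u atTop = ⊥ ∨ 0 ≤ limsup u atTop := by
  by_cases h : 0 ≤ limsup u atTop
  · right; exact h
  · left
    push Not at h
    have h1 := eventually_lt_of_limsup_lt h
    have h2 : ∀ᶠ n in atTop, u n = ⊥ := by
      filter_upwards [h1] with n hn
      rcases hu n with h3 | h3
      · exact h3
      · exact absurd hn (not_lt.2 h3)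
    have h3 : limsup u atTop = limsup (fun _ : ℕ => (⊥ : EReal)) atTop :=
      limsup_congr h2
    rw [h3]
    simp

lemma entropy_mem [Finite A] (S : SoficApprox G) (X : Set (G → A)) :
    entropy S X = ⊥ ∨ ∃ c : ℝ, 0 ≤ c ∧ entropy S X = (c : EReal) := by
  have hle : entropy S X ≤ ((Real.log (Nat.card A) : ℝ) : EReal) := by
    unfold entropy
    refine (iInf_le _ ∅).trans ((iInf_le _ ⟨1, one_pos⟩).trans ?_)
    refine limsup_le_of_le (by isBoundedDefault) (Eventually.of_forall fun n => ?_)
    have := S.finite n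
    have := S.nonempty n
    exact logCount_le _ _ _ _
  by_cases h0 : 0 ≤ entropy S X
  · right
    have htop : entropy S X ≠ ⊤ := fun h => by
      rw [h] at hle
      exact absurd hle (not_le.2 (EReal.coe_lt_top _))
    have hbot : entropy S X ≠ ⊥ := fun h => by
      rw [h] at h0
      exact absurd h0 (not_le.2 (by exact EReal.bot_lt_zero))
    refine ⟨(entropy S X).toReal, ?_, (EReal.coe_toReal htop hbot).symm⟩
    exact EReal.toReal_nonneg h0
  · left
    push Not at h0
    unfold entropy at h0 ⊢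
    obtain ⟨E, hE⟩ := iInf_lt_iff.1 h0
    obtain ⟨δ, hδ⟩ := iInf_lt_iff.1 hE
    rcases limsup_bot_or (fun n => logCount (microstates (S.π n) X E δ).ncard (Nat.card (S.K n)))
      (fun n => logCount_nonneg_or _ _) with h1 | h1
    · apply le_bot_iff.1
      exact (iInf_le _ E).trans ((iInf_le _ δ).trans h1.le)
    · exact absurd hδ (not_lt.2 h1)

/-- characterisation of the entropy when all counts are positive -/
lemma entropy_eq_of (S : SoficApprox G) (X : Set (G → A)) (h : ℝ)
    (hpos : ∀ n E δ, 0 < δ → 0 < (microstates (S.π n) X E δ).ncard)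
    (hU : ∀ η : ℝ, 0 < η → ∃ (E : Finset G) (δ : ℝ), 0 < δ ∧ ∀ᶠ n in atTop,
      Real.log ((microstates (S.π n) X E δ).ncard) ≤ (h + η) * Nat.card (S.K n))
    (hL : ∀ (E : Finset G) (δ : ℝ), 0 < δ → ∀ η : ℝ, 0 < η → ∃ᶠ n in atTop,
      (h - η) * Nat.card (S.K n) ≤ Real.log ((microstates (S.π n) X E δ).ncard)) :
    entropy S X = (h : EReal) := by
  have hK : ∀ n, (0:ℝ) < Nat.card (S.K n) := fun n => by
    have := S.finite n
    have := S.nonempty n
    exact_mod_cast Nat.card_pos
  have hlc : ∀ n E δ, 0 < δ → logCount (microstates (S.π n) X E δ).ncard (Nat.card (S.K n)) =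
      ((Real.log ((microstates (S.π n) X E δ).ncard) / Nat.card (S.K n) : ℝ) : EReal) := by
    intro n E δ hδ
    unfold logCount
    rw [if_neg (hpos n E δ hδ).ne']
  apply le_antisymm
  · apply EReal.le_of_forall_lt_iff_le.1
    intro z hz
    rw [EReal.coe_lt_coe_iff] at hz
    obtain ⟨E, δ, hδ, hE⟩ := hU (z - h) (by linarith)
    unfold entropy
    refine (iInf_le _ E).trans ((iInf_le _ ⟨δ, hδ⟩).trans ?_)
    refine limsup_le_of_le (by isBoundedDefault) ?_
    filter_upwards [hE] with n hn
    rw [hlc n E δ hδ, EReal.coe_le_coe_iff, div_le_iff₀ (hK n)]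
    have : h + (z - h) = z := by ring
    rwa [this] at hn
  · apply EReal.ge_of_forall_gt_iff_ge.1
    intro z hz
    rw [EReal.coe_lt_coe_iff] at hz
    unfold entropy
    refine le_iInf (fun E => le_iInf (fun δ => ?_))
    refine le_limsup_of_frequently_le ?_ (by isBoundedDefault)
    refine (hL E δ δ.2 (h - z) (by linarith)).mono (fun n hn => ?_)
    rw [hlc n E δ δ.2, EReal.coe_le_coe_iff, le_div_iff₀ (hK n)]
    have : h - (h - z) = z := by ring
    rwa [this] at hn

lemma upper_of_entropy (S : SoficApprox G) (X : Set (G → A)) (h : ℝ)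
    (hpos : ∀ n E δ, 0 < δ → 0 < (microstates (S.π n) X E δ).ncard)
    (he : entropy S X = (h : EReal)) (η : ℝ) (hη : 0 < η) :
    ∃ (E : Finset G) (δ : ℝ), 0 < δ ∧ ∀ᶠ n in atTop,
      Real.log ((microstates (S.π n) X E δ).ncard) ≤ (h + η) * Nat.card (S.K n) := by
  have hK : ∀ n, (0:ℝ) < Nat.card (S.K n) := fun n => by
    have := S.finite n
    have := S.nonempty n
    exact_mod_cast Nat.card_pos
  have h1 : entropy S X < ((h + η : ℝ) : EReal) := by
    rw [he, EReal.coe_lt_coe_iff]; linarith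
  unfold entropy at h1
  obtain ⟨E, hE⟩ := iInf_lt_iff.1 h1
  obtain ⟨δ, hδ⟩ := iInf_lt_iff.1 hE
  refine ⟨E, δ, δ.2, ?_⟩
  filter_upwards [eventually_lt_of_limsup_lt hδ] with n hn
  unfold logCount at hn
  rw [if_neg (hpos n E δ δ.2).ne', EReal.coe_lt_coe_iff, div_lt_iff₀ (hK n)] at hn
  exact hn.le

lemma lower_of_entropy (S : SoficApprox G) (X : Set (G → A)) (h : ℝ)
    (hpos : ∀ n E δ, 0 < δ → 0 < (microstates (S.π n) X E δ).ncard)
    (he : entropy S X = (h : EReal)) (E : Finset G) (δ : ℝ) (hδ : 0 < δ) (η : ℝ) (hη : 0 < η) :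
    ∃ᶠ n in atTop,
      (h - η) * Nat.card (S.K n) ≤ Real.log ((microstates (S.π n) X E δ).ncard) := by
  have hK : ∀ n, (0:ℝ) < Nat.card (S.K n) := fun n => by
    have := S.finite n
    have := S.nonempty n
    exact_mod_cast Nat.card_pos
  have h1 : ((h - η : ℝ) : EReal) <
      limsup (fun n => logCount (microstates (S.π n) X E δ).ncard (Nat.card (S.K n))) atTop := by
    refine lt_of_lt_of_le ?_ (?_ : (h : EReal) ≤ _)
    · rw [EReal.coe_lt_coe_iff]; linarith
    · rw [← he]
      unfold entropy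
      exact (iInf_le _ E).trans (iInf_le _ (⟨δ, hδ⟩ : {δ : ℝ // 0 < δ}))
  refine (frequently_lt_of_lt_limsup (by isBoundedDefault) h1).mono (fun n hn => ?_)
  unfold logCount at hn
  rw [if_neg (hpos n E δ hδ).ne', EReal.coe_lt_coe_iff, lt_div_iff₀ (hK n)] at hn
  exact hn.le

end basic


/-! ## Random permutations -/

section words
variable {ι : Type} [DecidableEq ι] {α : Type} [DecidableEq α]

/-- permutation attached to a letter -/
def step (p : ι → Equiv.Perm α) (l : ι × Bool) : Equiv.Perm α :=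
  cond l.2 (p l.1) (p l.1)⁻¹

def ev (p : ι → Equiv.Perm α) : List (ι × Bool) → α → α
  | [], k => k
  | (l :: L), k => step p l (ev p L k)

def Inj (p : ι → Equiv.Perm α) (L : List (ι × Bool)) (k : α) : Prop :=
  ∀ S₁ S₂ : List (ι × Bool), S₁ <:+ L → S₂ <:+ L → ev p S₁ k = ev p S₂ k → S₁ = S₂

def modify (p : ι → Equiv.Perm α) (l : ι × Bool) (y z : α) : ι → Equiv.Perm α :=
  Function.update p l.1 (cond l.2 (Equiv.swap y z * p l.1) (p l.1 * Equiv.swap y z))

lemma step_modify_self (p : ι → Equiv.Perm α) (l : ι × Bool) (y z : α) :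
    step (modify p l y z) l = Equiv.swap y z * step p l := by
  obtain ⟨i, b⟩ := l
  cases b <;> simp [step, modify, mul_inv_rev]

omit [DecidableEq ι] [DecidableEq α] in
lemma step_not (p : ι → Equiv.Perm α) (i : ι) (b : Bool) :
    step p (i, !b) = (step p (i, b))⁻¹ := by
  cases b <;> simp [step]

lemma step_modify_other (p : ι → Equiv.Perm α) (l m : ι × Bool) (y z : α) (h : m.1 ≠ l.1) :
    step (modify p l y z) m = step p m := by
  simp [step, modify, Function.update_of_ne h]

lemma agree (p : ι → Equiv.Perm α) (l : ι × Bool) (L : List (ι × Bool)) (k z : α)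
    (hred : FreeGroup.IsReduced (l :: L)) (hinj : Inj p L k)
    (hz : ∀ S, S <:+ L → ev p S k ≠ z) (S : List (ι × Bool)) (hS : S <:+ L) :
    ev (modify p l (ev p (l :: L) k) z) S k = ev p S k := by
  induction S with
  | nil => rfl
  | cons m S' ih =>
    have hS' : S' <:+ L := (List.suffix_cons m S').trans hS
    have ih' := ih hS'
    simp only [ev] at ih' ⊢
    rw [ih']
    by_cases hm : m.1 = l.1
    · by_cases hb : m.2 = l.2
      · have hml : m = l := Prod.ext hm hb
        subst hml
        rw [step_modify_self, Equiv.Perm.mul_apply]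
        apply Equiv.swap_apply_of_ne_of_ne
        · intro h
          have h2 : ev p S' k = ev p L k := (step p m).injective h
          have h3 := hinj _ _ hS' (List.suffix_refl L) h2
          subst h3
          have := hS.length_le
          simp at this
        · exact hz _ hS
      · have hml : m = (l.1, !l.2) := by
          refine Prod.ext hm ?_
          simp only
          cases h1 : m.2 <;> cases h2 : l.2 <;> simp_all
        have hstep : step (modify p l (step p l (ev p L k)) z) m
            = step p m * Equiv.swap (step p l (ev p L k)) z := by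
          rw [hml, step_not, step_not]
          have := step_modify_self p l (step p l (ev p L k)) z
          have h4 : ((l.1, l.2) : ι × Bool) = l := rfl
          rw [h4, this, mul_inv_rev, Equiv.swap_inv]
        rw [hstep, Equiv.Perm.mul_apply, Equiv.swap_apply_of_ne_of_ne]
        · intro h
          -- ev p (m :: S') k = ev p L k
          have h5 : ev p (m :: S') k = ev p L k := by
            simp only [ev]
            rw [h, hml, step_not]
            simp
          have h6 := hinj _ _ hS (List.suffix_refl L) h5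
          subst h6
          have h7 := List.isChain_cons_cons.1 hred
          have := h7.1 hm.symm
          exact hb this.symm
        · exact hz _ hS'
    · rw [step_modify_other _ _ _ _ _ hm]

lemma count_bad [Fintype ι] [Fintype α] (l : ι × Bool) (L : List (ι × Bool))
    (hred : FreeGroup.IsReduced (l :: L)) :
    Nat.card {q : (ι → Equiv.Perm α) × α //
        Inj q.1 L q.2 ∧ ∃ S, S <:+ L ∧ ev q.1 (l :: L) q.2 = ev q.1 S q.2}
      * (Fintype.card α - (L.length + 1))
      ≤ (L.length + 1) * Fintype.card ((ι → Equiv.Perm α) × α) := by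
  classical
  rw [Nat.card_eq_fintype_card, Fintype.card_subtype]
  set B : Finset ((ι → Equiv.Perm α) × α) := univ.filter (fun q =>
    Inj q.1 L q.2 ∧ ∃ S, S <:+ L ∧ ev q.1 (l :: L) q.2 = ev q.1 S q.2) with hB
  let Z : ((ι → Equiv.Perm α) × α) → Finset α := fun q =>
    univ.filter (fun z => ∀ S, S <:+ L → ev q.1 S q.2 ≠ z)
  have htails : L.tails.toFinset.card ≤ L.length + 1 := by
    calc L.tails.toFinset.card ≤ L.tails.length := List.toFinset_card_le _
      _ = L.length + 1 := List.length_tails L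
  have hZ : ∀ q, Fintype.card α - (L.length + 1) ≤ (Z q).card := by
    intro q
    have h1 : Z q = univ \ (L.tails.toFinset.image (fun S => ev q.1 S q.2)) := by
      ext z
      simp only [Z, mem_filter, mem_univ, true_and, Finset.mem_sdiff, Finset.mem_image, List.mem_toFinset,
        List.mem_tails, not_exists, not_and]
    rw [h1, Finset.card_univ_sdiff]
    have h2 : (L.tails.toFinset.image (fun S => ev q.1 S q.2)).card ≤ L.length + 1 :=
      card_image_le.trans htails
    omega
  have hex : ∀ q ∈ B, ∃ S, S <:+ L ∧ ev q.1 (l :: L) q.2 = ev q.1 S q.2 := by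
    intro q hq
    exact (mem_filter.1 hq).2.2
  choose! S₀ hS₀ using hex
  have hcard : B.card * (Fintype.card α - (L.length + 1)) ≤ (B.sigma Z).card := by
    rw [Finset.card_sigma]
    calc B.card * (Fintype.card α - (L.length + 1))
        = ∑ _q ∈ B, (Fintype.card α - (L.length + 1)) := by rw [sum_const, smul_eq_mul]
      _ ≤ ∑ q ∈ B, (Z q).card := sum_le_sum (fun q _ => hZ q)
  refine hcard.trans ?_
  have hmap : (B.sigma Z).card ≤
      ((univ : Finset ((ι → Equiv.Perm α) × α)) ×ˢ L.tails.toFinset).card := by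
    refine Finset.card_le_card_of_injOn
      (fun x => ((modify x.1.1 l (ev x.1.1 (l :: L) x.1.2) x.2, x.1.2), S₀ x.1)) ?_ ?_
    · intro x hx
      have hx' := mem_sigma.1 (mem_coe.1 hx)
      simp only [coe_product, Set.mem_prod, mem_coe, mem_univ, List.mem_toFinset, List.mem_tails,
        true_and]
      exact (hS₀ x.1 hx'.1).1
    · rintro ⟨⟨p, k⟩, z⟩ hx ⟨⟨p', k'⟩, z'⟩ hx' heq
      have hx1 := mem_sigma.1 (mem_coe.1 hx)
      have hx2 := mem_sigma.1 (mem_coe.1 hx')
      simp only [Prod.mk.injEq] at heq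
      obtain ⟨⟨hp, hk⟩, hSS⟩ := heq
      subst hk
      have hB1 := (mem_filter.1 hx1.1).2
      have hB2 := (mem_filter.1 hx2.1).2
      have hz1 : ∀ S, S <:+ L → ev p S k ≠ z := (mem_filter.1 hx1.2).2
      have hz2 : ∀ S, S <:+ L → ev p' S k ≠ z' := (mem_filter.1 hx2.2).2
      have e1 := hS₀ _ hx1.1
      have e2 := hS₀ _ hx2.1
      simp only at e1 e2 hB1 hB2 hp hSS
      have a1 := agree p l L k z hred hB1.1 hz1
      have a2 := agree p' l L k z' hred hB2.1 hz2
      -- y equal
      have hy : ev p (l :: L) k = ev p' (l :: L) k := by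
        rw [e1.2, e2.2, ← a1 _ e1.1, ← a2 _ e2.1, hp, hSS]
      have hL : ev p L k = ev p' L k := by
        rw [← a1 _ (List.suffix_refl L), ← a2 _ (List.suffix_refl L), hp]
      have hzz : z = z' := by
        have s1 := step_modify_self p l (ev p (l :: L) k) z
        have s2 := step_modify_self p' l (ev p' (l :: L) k) z'
        have t1 : step (modify p l (ev p (l :: L) k) z) l (ev p L k) = z := by
          rw [s1, Equiv.Perm.mul_apply]
          show Equiv.swap (ev p (l :: L) k) z (ev p (l :: L) k) = z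
          simp
        have t2 : step (modify p' l (ev p' (l :: L) k) z') l (ev p' L k) = z' := by
          rw [s2, Equiv.Perm.mul_apply]
          show Equiv.swap (ev p' (l :: L) k) z' (ev p' (l :: L) k) = z'
          simp
        rw [← t1, ← t2, hp, hL]
      subst hzz
      have hpp : p = p' := by
        funext i
        by_cases hi : i = l.1
        · subst hi
          have hp1 := congrFun hp l.1
          rw [hy] at hp1
          simp only [modify, Function.update_self] at hp1
          cases hb : l.2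
          · simp only [hb, cond_false] at hp1
            exact mul_right_cancel hp1
          · simp only [hb, cond_true] at hp1
            exact mul_left_cancel hp1
        · have hp1 := congrFun hp i
          simpa [modify, Function.update_of_ne hi] using hp1
      subst hpp
      rfl
  refine hmap.trans ?_
  rw [card_product, card_univ, mul_comm]
  exact Nat.mul_le_mul_right _ htails


lemma count_notInj [Fintype ι] [Fintype α] (L : List (ι × Bool))
    (hred : FreeGroup.IsReduced L) :
    Nat.card {q : (ι → Equiv.Perm α) × α // ¬ Inj q.1 L q.2} * (Fintype.card α - L.length)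
      ≤ L.length ^ 2 * Fintype.card ((ι → Equiv.Perm α) × α) := by
  classical
  induction L with
  | nil =>
    have : Nat.card {q : (ι → Equiv.Perm α) × α // ¬ Inj q.1 [] q.2} = 0 := by
      rw [Nat.card_eq_zero]
      left
      refine ⟨fun q => q.2 ?_⟩
      intro S₁ S₂ h1 h2 _
      rw [List.suffix_nil.1 h1, List.suffix_nil.1 h2]
    rw [this]; simp
  | cons l L ih =>
    have hred' : FreeGroup.IsReduced L := List.IsChain.tail hred
    have ih' := ih hred'
    have hb := count_bad (α := α) l L hred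
    have hle : Nat.card {q : (ι → Equiv.Perm α) × α // ¬ Inj q.1 (l :: L) q.2} ≤
        Nat.card {q : (ι → Equiv.Perm α) × α // ¬ Inj q.1 L q.2} +
        Nat.card {q : (ι → Equiv.Perm α) × α //
          Inj q.1 L q.2 ∧ ∃ S, S <:+ L ∧ ev q.1 (l :: L) q.2 = ev q.1 S q.2} := by
      rw [Nat.card_eq_fintype_card, Nat.card_eq_fintype_card, Nat.card_eq_fintype_card,
        Fintype.card_subtype, Fintype.card_subtype, Fintype.card_subtype]
      refine le_trans (card_le_card ?_) (card_union_le _ _)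
      intro q hq
      simp only [mem_filter, mem_univ, true_and, mem_union] at hq ⊢
      by_cases hI : Inj q.1 L q.2
      · right
        refine ⟨hI, ?_⟩
        by_contra hne
        push Not at hne
        apply hq
        intro S₁ S₂ h1 h2 h12
        rcases List.suffix_cons_iff.1 h1 with rfl | h1'
        · rcases List.suffix_cons_iff.1 h2 with rfl | h2'
          · rfl
          · exact absurd h12 (hne _ h2')
        · rcases List.suffix_cons_iff.1 h2 with rfl | h2'
          · exact absurd h12.symm (hne _ h1')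
          · exact hI _ _ h1' h2' h12
      · left; exact hI
    set A := Nat.card {q : (ι → Equiv.Perm α) × α // ¬ Inj q.1 L q.2}
    set B := Nat.card {q : (ι → Equiv.Perm α) × α //
          Inj q.1 L q.2 ∧ ∃ S, S <:+ L ∧ ev q.1 (l :: L) q.2 = ev q.1 S q.2}
    set C := Nat.card {q : (ι → Equiv.Perm α) × α // ¬ Inj q.1 (l :: L) q.2}
    set T := Fintype.card ((ι → Equiv.Perm α) × α)
    have h1 : A * (Fintype.card α - (L.length + 1)) ≤ L.length ^ 2 * T :=
      (Nat.mul_le_mul_left _ (by omega)).trans ih'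
    calc C * (Fintype.card α - (l :: L).length)
        = C * (Fintype.card α - (L.length + 1)) := by simp
      _ ≤ (A + B) * (Fintype.card α - (L.length + 1)) := Nat.mul_le_mul_right _ hle
      _ = A * (Fintype.card α - (L.length + 1)) + B * (Fintype.card α - (L.length + 1)) := by
          ring
      _ ≤ L.length ^ 2 * T + (L.length + 1) * T := Nat.add_le_add h1 hb
      _ ≤ (l :: L).length ^ 2 * T := by
          simp only [List.length_cons]
          nlinarith [Nat.zero_le (L.length * T)]

lemma count_fixed [Fintype ι] [Fintype α] (L : List (ι × Bool))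
    (hred : FreeGroup.IsReduced L) (hne : L ≠ []) :
    Nat.card {q : (ι → Equiv.Perm α) × α // ev q.1 L q.2 = q.2} * (Fintype.card α - L.length)
      ≤ L.length ^ 2 * Fintype.card ((ι → Equiv.Perm α) × α) := by
  classical
  refine le_trans (Nat.mul_le_mul_right _ ?_) (count_notInj (α := α) L hred)
  rw [Nat.card_eq_fintype_card, Nat.card_eq_fintype_card, Fintype.card_subtype,
    Fintype.card_subtype]
  refine card_le_card ?_
  intro q hq
  simp only [mem_filter, mem_univ, true_and] at hq ⊢
  intro hI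
  exact hne (hI L [] (List.suffix_refl L) (List.nil_suffix) (by simpa [ev] using hq))

lemma fixed_markov [Fintype ι] [Fintype α] (L : List (ι × Bool)) (ε : ℝ) (hε : 0 < ε) :
    (Nat.card {p : ι → Equiv.Perm α //
        ε * Fintype.card α < Nat.card {k : α // ev p L k = k}} : ℝ) * (ε * Fintype.card α)
      ≤ Nat.card {q : (ι → Equiv.Perm α) × α // ev q.1 L q.2 = q.2} := by
  classical
  have h1 : Nat.card {q : (ι → Equiv.Perm α) × α // ev q.1 L q.2 = q.2}
      = ∑ p : ι → Equiv.Perm α, Nat.card {k : α // ev p L k = k} := by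
    rw [← Nat.card_sigma]
    refine Nat.card_congr ?_
    exact
      { toFun := fun q => ⟨q.1.1, ⟨q.1.2, q.2⟩⟩
        invFun := fun q => ⟨(q.1, q.2.1), q.2.2⟩
        left_inv := fun q => rfl
        right_inv := fun q => rfl }
  rw [h1, Nat.card_eq_fintype_card, Fintype.card_subtype]
  push_cast
  calc ((univ.filter (fun p : ι → Equiv.Perm α =>
        ε * Fintype.card α < Nat.card {k : α // ev p L k = k})).card : ℝ) * (ε * Fintype.card α)
      = ∑ _p ∈ univ.filter (fun p : ι → Equiv.Perm α =>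
        ε * Fintype.card α < Nat.card {k : α // ev p L k = k}), (ε * Fintype.card α) := by
        rw [sum_const, nsmul_eq_mul]
    _ ≤ ∑ p ∈ univ.filter (fun p : ι → Equiv.Perm α =>
        ε * Fintype.card α < Nat.card {k : α // ev p L k = k}),
          (Nat.card {k : α // ev p L k = k} : ℝ) :=
        sum_le_sum (fun p hp => (mem_filter.1 hp).2.le)
    _ ≤ ∑ p : ι → Equiv.Perm α, (Nat.card {k : α // ev p L k = k} : ℝ) :=
        sum_le_sum_of_subset_of_nonneg (filter_subset _ _) (fun _ _ _ => Nat.cast_nonneg _)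

end words

open Filter Topology in
lemma fixed_small {ι : Type} [DecidableEq ι] [Fintype ι] (L : List (ι × Bool))
    (hred : FreeGroup.IsReduced L) (hne : L ≠ []) (ε η : ℝ) (hε : 0 < ε) (hη : 0 < η) :
    ∀ᶠ N : ℕ in atTop, (Nat.card {p : ι → Equiv.Perm (Fin N) //
        ¬ ((Nat.card {k : Fin N // ev p L k = k} : ℝ) ≤ ε * N)} : ℝ)
      ≤ η * Nat.card (ι → Equiv.Perm (Fin N)) := by
  have hlim : Tendsto (fun N : ℕ => (N : ℝ)) atTop atTop := tendsto_natCast_atTop_atTop
  filter_upwards [hlim.eventually_ge_atTop (2 * L.length + 1 : ℝ),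
    hlim.eventually_ge_atTop (2 * (L.length : ℝ) ^ 2 / (ε * η) + 1)] with N hN1 hN2
  have h1 := count_fixed (α := Fin N) L hred hne
  have h2 := fixed_markov (α := Fin N) L ε hε
  simp only [Fintype.card_fin, Fintype.card_prod] at h1 h2
  have hNpos : (0 : ℝ) < N := by
    have : (0:ℝ) ≤ L.length := Nat.cast_nonneg _
    linarith
  have hLN : L.length ≤ N := by
    have : (L.length : ℝ) ≤ N := by
      have : (0:ℝ) ≤ L.length := Nat.cast_nonneg _
      linarith
    exact_mod_cast this
  have h1' : (Nat.card {q : (ι → Equiv.Perm (Fin N)) × Fin N // ev q.1 L q.2 = q.2} : ℝ)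
      * ((N : ℝ) - L.length) ≤ (L.length : ℝ) ^ 2 *
        ((Fintype.card (ι → Equiv.Perm (Fin N)) : ℝ) * N) := by
    rw [← Nat.cast_sub hLN]
    exact_mod_cast h1
  rw [Nat.card_eq_fintype_card (α := ι → Equiv.Perm (Fin N))]
  have hset : Nat.card {p : ι → Equiv.Perm (Fin N) //
        ¬ ((Nat.card {k : Fin N // ev p L k = k} : ℝ) ≤ ε * N)} =
      Nat.card {p : ι → Equiv.Perm (Fin N) //
        ε * N < (Nat.card {k : Fin N // ev p L k = k} : ℝ)} := by
    congr 1
    simp only [not_le]
  rw [hset]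
  set A : ℝ := (Nat.card {p : ι → Equiv.Perm (Fin N) //
        ε * N < (Nat.card {k : Fin N // ev p L k = k} : ℝ)} : ℝ) with hA
  set B : ℝ := (Nat.card {q : (ι → Equiv.Perm (Fin N)) × Fin N // ev q.1 L q.2 = q.2} : ℝ)
  set T : ℝ := (Fintype.card (ι → Equiv.Perm (Fin N)) : ℝ)
  have hT : 0 ≤ T := Nat.cast_nonneg _
  have hA0 : 0 ≤ A := Nat.cast_nonneg _
  have hl0 : (0:ℝ) ≤ L.length := Nat.cast_nonneg _
  -- A ε N (N - l) ≤ l^2 T N
  have h3 : A * (ε * N) * (N - L.length) ≤ (L.length : ℝ) ^ 2 * (T * N) :=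
    (mul_le_mul_of_nonneg_right h2 (by linarith)).trans h1'
  have h4 : A * ε * (N - L.length) ≤ (L.length : ℝ) ^ 2 * T := by
    have : (A * ε * (N - L.length)) * N ≤ ((L.length : ℝ) ^ 2 * T) * N := by
      calc _ = A * (ε * N) * (N - L.length) := by ring
        _ ≤ _ := h3
        _ = _ := by ring
    exact le_of_mul_le_mul_right this hNpos
  have h5 : (N : ℝ) / 2 ≤ N - L.length := by linarith
  have h6 : 2 * (L.length : ℝ) ^ 2 ≤ ε * η * N := by
    have h7 : 2 * (L.length : ℝ) ^ 2 / (ε * η) ≤ N := by linarith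
    rw [div_le_iff₀ (by positivity)] at h7
    linarith
  have h8 : A * ε * (N / 2) ≤ (L.length : ℝ) ^ 2 * T :=
    (mul_le_mul_of_nonneg_left h5 (by positivity)).trans h4
  have h9 : A * (ε * (N / 2)) ≤ (η * T) * (ε * (N / 2)) := by
    calc A * (ε * (N / 2)) = A * ε * (N / 2) := by ring
      _ ≤ (L.length : ℝ) ^ 2 * T := h8
      _ ≤ (ε * η * N / 2) * T := mul_le_mul_of_nonneg_right (by linarith) hT
      _ = _ := by ring
  exact le_of_mul_le_mul_right h9 (by positivity)

/-- number of words in a Hamming ball -/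
lemma ball_rpow {α β : Type} [Fintype α] [DecidableEq α] [Fintype β] [DecidableEq β]
    (f₀ : α → β) (x d : ℝ) (hx : 0 < x) (hx1 : x ≤ 1) :
    ((univ.filter (fun f : α → β => (hammingDist f f₀ : ℝ) ≤ d)).card : ℝ) * x ^ d
      ≤ (1 + Fintype.card β * x) ^ Fintype.card α := by
  have h1 : ∑ f : α → β, x ^ (hammingDist f f₀) =
      ∏ a : α, ∑ b : β, (if b ≠ f₀ a then x else 1) := by
    rw [Finset.prod_univ_sum]
    rw [Fintype.piFinset_univ]
    refine sum_congr rfl (fun f _ => ?_)
    rw [Finset.prod_ite]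
    simp [hammingDist]
  have h2 : ∀ a : α, ∑ b : β, (if b ≠ f₀ a then x else (1:ℝ)) ≤ 1 + Fintype.card β * x := by
    intro a
    calc ∑ b : β, (if b ≠ f₀ a then x else (1:ℝ))
        ≤ ∑ b : β, ((if b = f₀ a then 1 else 0) + x) := by
          refine sum_le_sum (fun b _ => ?_)
          by_cases hb : b = f₀ a
          · simp [hb, hx.le]
          · simp [hb]
      _ = 1 + Fintype.card β * x := by
          rw [sum_add_distrib]
          simp
  calc ((univ.filter (fun f : α → β => (hammingDist f f₀ : ℝ) ≤ d)).card : ℝ) * x ^ d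
      = ∑ _f ∈ univ.filter (fun f : α → β => (hammingDist f f₀ : ℝ) ≤ d), x ^ d := by
        rw [sum_const, nsmul_eq_mul]
    _ ≤ ∑ f ∈ univ.filter (fun f : α → β => (hammingDist f f₀ : ℝ) ≤ d),
          x ^ (hammingDist f f₀) := by
        refine sum_le_sum (fun f hf => ?_)
        rw [← Real.rpow_natCast]
        exact Real.rpow_le_rpow_of_exponent_ge hx hx1 (mem_filter.1 hf).2
    _ ≤ ∑ f : α → β, x ^ (hammingDist f f₀) :=
        sum_le_sum_of_subset_of_nonneg (filter_subset _ _) (fun _ _ _ => by positivity)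
    _ = ∏ a : α, ∑ b : β, (if b ≠ f₀ a then x else 1) := h1
    _ ≤ ∏ _a : α, (1 + Fintype.card β * x) :=
        Finset.prod_le_prod (fun a _ => sum_nonneg (fun b _ => by split_ifs <;> positivity))
          (fun a _ => h2 a)
    _ = _ := by rw [prod_const, card_univ]

/-- exponential form of the bound for Hamming balls -/
lemma ball_exp {α β : Type} [Fintype α] [DecidableEq α] [Fintype β] [DecidableEq β]
    (f₀ : α → β) (ε : ℝ) (hε : 0 < ε) (hε1 : ε ≤ 1) :
    ((univ.filter (fun f : α → β =>
        (hammingDist f f₀ : ℝ) ≤ ε * Fintype.card α)).card : ℝ)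
      ≤ Real.exp (Fintype.card α * (-(ε * Real.log ε) + Fintype.card β * ε)) := by
  have h := ball_rpow f₀ ε (ε * Fintype.card α) hε hε1
  have hpos : 0 < ε ^ (ε * (Fintype.card α : ℝ)) := Real.rpow_pos_of_pos hε _
  have h2 : (1 + (Fintype.card β : ℝ) * ε) ^ Fintype.card α ≤
      Real.exp (Fintype.card α * (Fintype.card β * ε)) := by
    rw [Real.exp_nat_mul]
    refine pow_le_pow_left₀ (by positivity) ?_ _
    have := Real.add_one_le_exp ((Fintype.card β : ℝ) * ε)
    linarith
  have h3 : ε ^ (ε * (Fintype.card α : ℝ)) = Real.exp (Real.log ε * (ε * Fintype.card α)) :=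
    Real.rpow_def_of_pos hε _
  rw [← le_div_iff₀ hpos] at h
  refine h.trans ?_
  rw [div_le_iff₀ hpos, h3, ← Real.exp_add]
  refine h2.trans (Real.exp_le_exp.2 (le_of_eq ?_))
  ring

/-- `τ` exchanges the two colours and fixes the blank. -/
def tau : Option Bool → Option Bool := Option.map not

lemma tau_tau (x : Option Bool) : tau (tau x) = x := by
  rcases x with _ | b
  · rfl
  · simp [tau]

section stab
variable {α : Type} [Fintype α] [DecidableEq α]
variable {T : Type} [Fintype T] [DecidableEq T]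

def st (f : α → T) : Finset (Equiv.Perm α) := univ.filter (fun g => f ∘ g = f)

lemma fib_le (f h : α → T) :
    (univ.filter (fun g : Equiv.Perm α => f ∘ g = h)).card ≤ (st f).card := by
  rcases (univ.filter (fun g : Equiv.Perm α => f ∘ g = h)).eq_empty_or_nonempty with he | ⟨g₀, hg₀⟩
  · rw [he]; simp
  · refine card_le_card_of_injOn (fun g => g * g₀⁻¹) ?_ ?_
    · intro g hg
      simp only [mem_coe, mem_filter, mem_univ, true_and, st] at hg hg₀ ⊢
      funext a
      have h1 := congrFun hg (g₀⁻¹ a)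
      have h2 := congrFun hg₀ (g₀⁻¹ a)
      have h3 : g₀ (g₀⁻¹ a) = a := g₀.apply_symm_apply a
      simp only [Function.comp_apply] at h1 h2
      rw [h3] at h2
      simp only [Function.comp_apply, Equiv.Perm.mul_apply]
      rw [h1, ← h2]
    · intro g _ g' _ hgg
      exact mul_right_cancel hgg

lemma bad_le (f h : α → T) (d : ℝ) :
    (univ.filter (fun g : Equiv.Perm α => (hammingDist (f ∘ g) h : ℝ) ≤ d)).card
      ≤ (st f).card * (univ.filter (fun k : α → T => (hammingDist k h : ℝ) ≤ d)).card := by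
  refine Finset.card_le_mul_card_image_of_maps_to (f := fun g : Equiv.Perm α => f ∘ g) ?_ _ ?_
  · intro g hg
    simpa using hg
  · intro k _
    refine le_trans (card_le_card ?_) (fib_le f k)
    intro g hg
    simp only [mem_filter, mem_univ, true_and] at hg ⊢
    exact hg.2

/-- type of a function: the fibre sizes -/
def ty (f : α → T) : T → Fin (Fintype.card α + 1) :=
  fun x => ⟨(univ.filter (fun a => f a = x)).card, Nat.lt_succ_of_le (card_le_univ _)⟩

lemma exists_perm_of_ty (f₀ f : α → T) (h : ty f₀ = ty f) :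
    ∃ g : Equiv.Perm α, f₀ ∘ g = f := by
  have hc : ∀ c : T, Nonempty ({a // f a = c} ≃ {b // f₀ b = c}) := by
    intro c
    rw [← Fintype.card_eq, Fintype.card_subtype, Fintype.card_subtype]
    have := congrFun h c
    simp only [ty, Fin.mk.injEq] at this
    exact this.symm
  have e := fun c => Classical.choice (hc c)
  refine ⟨Equiv.ofFiberEquiv e, ?_⟩
  funext a
  exact Equiv.ofFiberEquiv_map e a

lemma class_sum (t : T → Fin (Fintype.card α + 1)) :
    ∑ f ∈ univ.filter (fun f : α → T => ty f = t), (st f).card ≤ (Fintype.card α).factorial := by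
  rcases (univ.filter (fun f : α → T => ty f = t)).eq_empty_or_nonempty with he | ⟨f₀, hf₀⟩
  · rw [he]; simp
  · have hf₀' := (mem_filter.1 hf₀).2
    have hex : ∀ f ∈ univ.filter (fun f : α → T => ty f = t),
        ∃ g : Equiv.Perm α, f₀ ∘ g = f := by
      intro f hf
      exact exists_perm_of_ty f₀ f (hf₀'.trans (mem_filter.1 hf).2.symm)
    choose! p hp using hex
    rw [← Finset.card_sigma]
    have hfac : (univ : Finset (Equiv.Perm α)).card = (Fintype.card α).factorial := by
      rw [card_univ, Fintype.card_perm]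
    refine le_of_le_of_eq ?_ hfac
    refine card_le_card_of_injOn (fun x => p x.1 * x.2) (fun _ _ => by simp) ?_
    rintro ⟨f, g⟩ hx ⟨f', g'⟩ hx' heq
    have h1 := mem_sigma.1 (mem_coe.1 hx)
    have h2 := mem_sigma.1 (mem_coe.1 hx')
    simp only at h1 h2 heq
    have e1 : f₀ ∘ (p f * g : Equiv.Perm α) = f := by
      have : (f₀ ∘ p f) ∘ g = f := by rw [hp f h1.1]; exact (mem_filter.1 h1.2).2
      exact this
    have e2 : f₀ ∘ (p f' * g' : Equiv.Perm α) = f' := by
      have : (f₀ ∘ p f') ∘ g' = f' := by rw [hp f' h2.1]; exact (mem_filter.1 h2.2).2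
      exact this
    have hff : f = f' := by rw [← e1, ← e2, heq]
    subst hff
    have := mul_left_cancel heq
    subst this
    rfl

lemma st_sum :
    ∑ f : α → T, (st f).card ≤
      (Fintype.card α + 1) ^ Fintype.card T * (Fintype.card α).factorial := by
  calc ∑ f : α → T, (st f).card
      = ∑ t : T → Fin (Fintype.card α + 1),
          ∑ f ∈ univ.filter (fun f : α → T => ty f = t), (st f).card :=
        (Finset.sum_fiberwise _ _ _).symm
    _ ≤ ∑ _t : T → Fin (Fintype.card α + 1), (Fintype.card α).factorial :=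
        sum_le_sum (fun t _ => class_sum t)
    _ = _ := by
        rw [sum_const, card_univ, smul_eq_mul]
        simp

end stab

lemma fac_aux (a b : ℕ) (h : b ≤ a) : a.factorial * b.factorial * 2 ^ b ≤ (a + b).factorial := by
  induction b with
  | zero => simp
  | succ b ih =>
    have ih' := ih (by omega)
    rw [Nat.factorial_succ b, ← Nat.add_assoc, Nat.factorial_succ (a + b), pow_succ]
    calc a.factorial * ((b + 1) * b.factorial) * (2 ^ b * 2)
        = (2 * (b + 1)) * (a.factorial * b.factorial * 2 ^ b) := by ring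
      _ ≤ (a + b + 1) * (a + b).factorial := Nat.mul_le_mul (by omega) ih'

lemma fac_aux2 (a b m : ℕ) (ha : m ≤ a) (hb : m ≤ b) :
    a.factorial * b.factorial * 2 ^ m ≤ (a + b).factorial := by
  rcases le_total b a with h | h
  · exact (Nat.mul_le_mul_left _ (Nat.pow_le_pow_right (by norm_num) hb)).trans (fac_aux a b h)
  · have := (Nat.mul_le_mul_left (b.factorial * a.factorial)
      (Nat.pow_le_pow_right (by norm_num : 0 < 2) ha)).trans (fac_aux b a h)
    rw [add_comm a b, mul_comm a.factorial]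
    exact this

lemma st_le {α : Type} [Fintype α] [DecidableEq α] (f : α → Option Bool) (m : ℕ)
    (h1 : m ≤ (univ.filter (fun a => f a = some true)).card)
    (h0 : m ≤ (univ.filter (fun a => f a = some false)).card) :
    (st f).card * 2 ^ m ≤ (Fintype.card α).factorial := by
  have hst : (st f).card = ∏ i, (Fintype.card {a // f a = i}).factorial := by
    rw [← DomMulAct.stabilizer_card f, Fintype.card_subtype]
    rfl
  have hN : Fintype.card α = (univ.filter (fun a => f a = none)).card +
      ((univ.filter (fun a => f a = some true)).card +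
      (univ.filter (fun a => f a = some false)).card) := by
    rw [← card_univ, card_eq_sum_card_fiberwise (f := f) (t := univ) (fun _ _ => by simp)]
    rw [Fintype.sum_option]
    simp
  rw [hst, Fintype.prod_option]
  simp only [Fintype.univ_bool, Fintype.card_subtype]
  rw [Finset.prod_pair (by simp)]
  set x := (univ.filter (fun a => f a = none)).card
  set y := (univ.filter (fun a => f a = some true)).card
  set z := (univ.filter (fun a => f a = some false)).card
  rw [hN]
  calc x.factorial * (y.factorial * z.factorial) * 2 ^ m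
      = x.factorial * (y.factorial * z.factorial * 2 ^ m) := by ring
    _ ≤ x.factorial * (y + z).factorial := Nat.mul_le_mul_left _ (fac_aux2 y z m h1 h0)
    _ ≤ (x + (y + z)).factorial :=
      Nat.le_of_dvd (Nat.factorial_pos _) (Nat.factorial_mul_factorial_dvd_factorial_add _ _)


section balance
variable {α : Type} [Fintype α] [DecidableEq α]

lemma card_le_add_hd {T : Type} [DecidableEq T] (f g : α → T) (x : T) :
    (univ.filter (fun a => f a = x)).card ≤ (univ.filter (fun a => g a = x)).card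
      + hammingDist f g := by
  unfold hammingDist
  refine le_trans (card_le_card ?_) (card_union_le _ _)
  intro a ha
  simp only [mem_filter, mem_univ, true_and, mem_union] at ha ⊢
  by_cases h : f a = g a
  · left; rw [← h]; exact ha
  · right; exact h

lemma card_comp_perm {T : Type} [DecidableEq T] (f : α → T) (g : Equiv.Perm α) (x : T) :
    (univ.filter (fun a => (f ∘ g) a = x)).card = (univ.filter (fun a => f a = x)).card := by
  refine Finset.card_bij (fun a _ => g a) ?_ ?_ ?_
  · intro a ha; simpa using ha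
  · intro a _ b _ h; exact g.injective h
  · intro b hb
    refine ⟨g.symm b, ?_, by simp⟩
    simpa using hb

lemma card_tau (f : α → Option Bool) (b : Bool) :
    (univ.filter (fun a => (tau ∘ f) a = some b)).card
      = (univ.filter (fun a => f a = some (!b))).card := by
  congr 1
  ext a
  simp only [mem_filter, mem_univ, true_and, Function.comp_apply, tau]
  rcases f a with _ | c
  · simp
  · cases b <;> cases c <;> simp

lemma balance (f : α → Option Bool) (g : Equiv.Perm α) (b : Bool) :
    (univ.filter (fun a => f a = some b)).card ≤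
      (univ.filter (fun a => f a = some (!b))).card + hammingDist (f ∘ g) (tau ∘ f) := by
  rw [← card_comp_perm f g, ← card_tau f b]
  exact card_le_add_hd _ _ _

lemma supp_card (f : α → Option Bool) :
    (univ.filter (fun a => f a ≠ none)).card = (univ.filter (fun a => f a = some true)).card
      + (univ.filter (fun a => f a = some false)).card := by
  rw [← card_union_of_disjoint]
  · congr 1
    ext a
    simp only [mem_filter, mem_univ, true_and, mem_union]
    rcases f a with _ | c
    · simp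
    · cases c <;> simp
  · rw [disjoint_left]
    intro a h1 h2
    simp only [mem_filter, mem_univ, true_and] at h1 h2
    rw [h1] at h2
    simp at h2

end balance

lemma pair_prob {ι P : Type} [Fintype ι] [DecidableEq ι] [Fintype P] [DecidableEq P] [Nonempty P]
    (i0 i1 : ι) (hne : i0 ≠ i1) (A : Finset P) :
    ((univ.filter (fun p : ι → P => p i0 ∈ A ∧ p i1 ∈ A)).card : ℝ) =
      ((A.card : ℝ) / Fintype.card P) ^ 2 * Fintype.card (ι → P) := by
  have h1 : univ.filter (fun p : ι → P => p i0 ∈ A ∧ p i1 ∈ A) =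
      Fintype.piFinset (fun i => if i = i0 ∨ i = i1 then A else univ) := by
    ext p
    simp only [mem_filter, mem_univ, true_and, Fintype.mem_piFinset]
    constructor
    · rintro ⟨h0, h1⟩ i
      split_ifs with h
      · rcases h with rfl | rfl
        · exact h0
        · exact h1
      · simp
    · intro h
      exact ⟨by simpa using h i0, by simpa using h i1⟩
  have hP : (Fintype.card P : ℝ) ≠ 0 := by
    have := Fintype.card_pos (α := P)
    positivity
  rw [h1, Fintype.card_piFinset]
  push_cast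
  have h2 : ∏ i : ι, ((if i = i0 ∨ i = i1 then A else univ).card : ℝ)
      = (∏ i : ι, (((if i = i0 ∨ i = i1 then A else univ).card : ℝ) / Fintype.card P)) *
        ∏ _i : ι, (Fintype.card P : ℝ) := by
    rw [← prod_mul_distrib]
    refine prod_congr rfl (fun i _ => ?_)
    field_simp
  rw [h2]
  have h3 : ∏ i : ι, (((if i = i0 ∨ i = i1 then A else univ).card : ℝ) / Fintype.card P)
      = (((A.card : ℝ) / Fintype.card P)) * ((A.card : ℝ) / Fintype.card P) := by
    rw [Finset.prod_eq_mul i0 i1 hne]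
    · simp
    · intro c _ hc
      have : ¬ (c = i0 ∨ c = i1) := by tauto
      rw [if_neg this, card_univ]
      exact div_self hP
    · intro h; exact absurd (mem_univ _) h
    · intro h; exact absurd (mem_univ _) h
  rw [h3, prod_const, card_univ, Fintype.card_fun]
  push_cast
  ring

/-- the sum of squares of the bad probabilities -/
lemma sum_sq (N : ℕ) (ε δ : ℝ) (hδ : 0 < δ) (hδε : δ ≤ ε / 2) (hε1 : ε ≤ 1) :
    ∑ f ∈ univ.filter (fun f : Fin N → Option Bool =>
        ε * N < (univ.filter (fun a => f a ≠ none)).card ∧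
        ((univ.filter (fun a => f a = some true)).card : ℝ) ≤
          (univ.filter (fun a => f a = some false)).card + δ * N ∧
        ((univ.filter (fun a => f a = some false)).card : ℝ) ≤
          (univ.filter (fun a => f a = some true)).card + δ * N),
      (((univ.filter (fun g : Equiv.Perm (Fin N) =>
        (hammingDist (f ∘ g) (tau ∘ f) : ℝ) ≤ δ * N)).card : ℝ) / (N.factorial : ℝ)) ^ 2
      ≤ Real.exp (N * (-(δ * Real.log δ) + 3 * δ)) ^ 2 *
        ((1 / 2 : ℝ) ^ (⌊ε * N / 4⌋₊) * (N + 1) ^ 3) := by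
  have hNf : (0 : ℝ) < N.factorial := by exact_mod_cast Nat.factorial_pos N
  set m := ⌊ε * N / 4⌋₊ with hm
  set b := Real.exp (N * (-(δ * Real.log δ) + 3 * δ)) with hb
  have hb0 : 0 < b := Real.exp_pos _
  have key : ∀ f ∈ univ.filter (fun f : Fin N → Option Bool =>
        ε * N < (univ.filter (fun a => f a ≠ none)).card ∧
        ((univ.filter (fun a => f a = some true)).card : ℝ) ≤
          (univ.filter (fun a => f a = some false)).card + δ * N ∧
        ((univ.filter (fun a => f a = some false)).card : ℝ) ≤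
          (univ.filter (fun a => f a = some true)).card + δ * N),
      (((univ.filter (fun g : Equiv.Perm (Fin N) =>
        (hammingDist (f ∘ g) (tau ∘ f) : ℝ) ≤ δ * N)).card : ℝ) / (N.factorial : ℝ)) ^ 2
      ≤ (b ^ 2 * (1 / 2 : ℝ) ^ m / N.factorial) * (st f).card := by
    intro f hf
    obtain ⟨h1, h2, h3⟩ := (mem_filter.1 hf).2
    rw [supp_card] at h1
    push_cast at h1
    have hN0 : (0:ℝ) ≤ N := Nat.cast_nonneg N
    have hδN : δ * N ≤ ε / 2 * N := mul_le_mul_of_nonneg_right hδε hN0
    have hmt : m ≤ (univ.filter (fun a => f a = some true)).card := by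
      rw [hm, ← Nat.cast_le (α := ℝ)]
      refine (Nat.floor_le ?_).trans ?_
      · have : 0 < ε := by linarith
        positivity
      · linarith
    have hmf : m ≤ (univ.filter (fun a => f a = some false)).card := by
      rw [hm, ← Nat.cast_le (α := ℝ)]
      refine (Nat.floor_le ?_).trans ?_
      · have : 0 < ε := by linarith
        positivity
      · linarith
    have hst := st_le f m hmt hmf
    rw [Fintype.card_fin] at hst
    have hst' : ((st f).card : ℝ) / N.factorial ≤ (1 / 2 : ℝ) ^ m := by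
      rw [div_le_iff₀ hNf, one_div, inv_pow, inv_mul_eq_div, le_div_iff₀ (by positivity)]
      exact_mod_cast hst
    have hball : ((univ.filter (fun k : Fin N → Option Bool =>
        (hammingDist k (tau ∘ f) : ℝ) ≤ δ * N)).card : ℝ) ≤ b := by
      have := ball_exp (tau ∘ f) δ hδ (by linarith)
      simp only [Fintype.card_fin, Fintype.card_option, Fintype.card_bool] at this
      convert this using 2
      norm_num
    have hbad : ((univ.filter (fun g : Equiv.Perm (Fin N) =>
        (hammingDist (f ∘ g) (tau ∘ f) : ℝ) ≤ δ * N)).card : ℝ) ≤ (st f).card * b := by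
      have := bad_le f (tau ∘ f) (δ * N)
      calc _ ≤ ((st f).card : ℝ) * (univ.filter (fun k : Fin N → Option Bool =>
        (hammingDist k (tau ∘ f) : ℝ) ≤ δ * N)).card := by exact_mod_cast this
        _ ≤ _ := mul_le_mul_of_nonneg_left hball (Nat.cast_nonneg _)
    calc _ ≤ (((st f).card * b) / (N.factorial : ℝ)) ^ 2 := by
          refine pow_le_pow_left₀ (by positivity) ?_ 2
          exact div_le_div_of_nonneg_right hbad hNf.le
      _ = b ^ 2 / N.factorial * (st f).card * ((st f).card / N.factorial) := by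
          field_simp
      _ ≤ b ^ 2 / N.factorial * (st f).card * (1 / 2 : ℝ) ^ m :=
          mul_le_mul_of_nonneg_left hst' (by positivity)
      _ = _ := by ring
  refine (sum_le_sum key).trans ?_
  rw [← mul_sum]
  have hsum : ∑ f ∈ univ.filter (fun f : Fin N → Option Bool =>
        ε * N < (univ.filter (fun a => f a ≠ none)).card ∧
        ((univ.filter (fun a => f a = some true)).card : ℝ) ≤
          (univ.filter (fun a => f a = some false)).card + δ * N ∧
        ((univ.filter (fun a => f a = some false)).card : ℝ) ≤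
          (univ.filter (fun a => f a = some true)).card + δ * N), ((st f).card : ℝ)
      ≤ (N + 1) ^ 3 * N.factorial := by
    refine (sum_le_sum_of_subset_of_nonneg (filter_subset _ _)
      (fun _ _ _ => Nat.cast_nonneg _)).trans ?_
    have := st_sum (α := Fin N) (T := Option Bool)
    simp only [Fintype.card_fin, Fintype.card_option, Fintype.card_bool] at this
    exact_mod_cast this
  calc (b ^ 2 * (1 / 2 : ℝ) ^ m / N.factorial) * _
      ≤ (b ^ 2 * (1 / 2 : ℝ) ^ m / N.factorial) * ((N + 1) ^ 3 * N.factorial) :=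
        mul_le_mul_of_nonneg_left hsum (by positivity)
    _ = _ := by field_simp


/-- the property that two colours cannot occupy a positive proportion of the points -/
def Good {ι : Type} (i0 i1 : ι) (ε δ : ℝ) (N : ℕ) (p : ι → Equiv.Perm (Fin N)) : Prop :=
  ∀ f : Fin N → Option Bool,
    (hammingDist (f ∘ (p i0).symm) (tau ∘ f) : ℝ) ≤ δ * N →
    (hammingDist (f ∘ (p i1).symm) (tau ∘ f) : ℝ) ≤ δ * N →
    ((univ.filter (fun a => f a ≠ none)).card : ℝ) ≤ ε * N

lemma exists_delta (ε : ℝ) (hε : 0 < ε) : ∃ δ : ℝ, 0 < δ ∧ δ ≤ ε / 2 ∧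
    2 * (-(δ * Real.log δ) + 3 * δ) ≤ ε * Real.log 2 / 8 := by
  have hc : Continuous (fun δ : ℝ => 2 * (-(δ * Real.log δ) + 3 * δ)) := by
    have := Real.continuous_mul_log
    fun_prop
  have h0 : (fun δ : ℝ => 2 * (-(δ * Real.log δ) + 3 * δ)) 0 < ε * Real.log 2 / 8 := by
    simp only [zero_mul, mul_zero, neg_zero, add_zero]
    have := Real.log_pos (by norm_num : (1:ℝ) < 2)
    positivity
  have h1 : ∀ᶠ δ in nhds (0:ℝ), 2 * (-(δ * Real.log δ) + 3 * δ) < ε * Real.log 2 / 8 :=
    hc.continuousAt.eventually_lt continuousAt_const h0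
  have h2 : ∀ᶠ δ in nhds (0:ℝ), δ < ε / 2 := gt_mem_nhds (by positivity)
  have h3 : ∀ᶠ δ in nhdsWithin (0:ℝ) (Set.Ioi 0), 0 < δ := eventually_mem_nhdsWithin
  obtain ⟨δ, ⟨ha, hb⟩, hd⟩ :=
    (((h1.and h2).filter_mono nhdsWithin_le_nhds).and h3).exists
  exact ⟨δ, hd, hb.le, ha.le⟩

open Filter Topology in
lemma decay (c : ℝ) (hc : 0 < c) :
    Tendsto (fun N : ℕ => Real.exp (-(c * N)) * ((N : ℝ) + 1) ^ 3) atTop (𝓝 0) := by
  have h1 : Tendsto (fun x : ℝ => x ^ 3 * Real.exp (-x)) atTop (𝓝 0) :=
    Real.tendsto_pow_mul_exp_neg_atTop_nhds_zero 3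
  have h2 : Tendsto (fun N : ℕ => c * ((N : ℝ) + 1)) atTop atTop := by
    refine Tendsto.const_mul_atTop hc ?_
    exact tendsto_atTop_add_const_right _ _ tendsto_natCast_atTop_atTop
  have h3 := (h1.comp h2).const_mul (Real.exp c / c ^ 3)
  rw [mul_zero] at h3
  refine h3.congr (fun N => ?_)
  simp only [Function.comp_apply]
  have : Real.exp (-(c * ((N:ℝ) + 1))) = Real.exp (-(c * N)) * (Real.exp c)⁻¹ := by
    rw [← Real.exp_neg, ← Real.exp_add]
    congr 1
    ring
  rw [this]
  have hec : Real.exp c ≠ 0 := (Real.exp_pos c).ne'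
  field_simp

open Filter Topology in
theorem robust {ι : Type} [Fintype ι] [DecidableEq ι] (i0 i1 : ι) (hne : i0 ≠ i1)
    (ε : ℝ) (hε : 0 < ε) (hε1 : ε ≤ 1) :
    ∃ δ : ℝ, 0 < δ ∧ ∀ η : ℝ, 0 < η → ∀ᶠ N : ℕ in atTop,
      (Nat.card {p : ι → Equiv.Perm (Fin N) // ¬ Good i0 i1 ε δ N p} : ℝ)
        ≤ η * Nat.card (ι → Equiv.Perm (Fin N)) := by
  obtain ⟨δ, hδ, hδε, hδH⟩ := exists_delta ε hε
  refine ⟨δ, hδ, fun η hη => ?_⟩
  have hl2 := Real.log_pos (by norm_num : (1:ℝ) < 2)
  have hlim := (decay (ε * Real.log 2 / 8) (by positivity)).const_mul 2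
  rw [mul_zero] at hlim
  filter_upwards [hlim.eventually_lt_const hη] with N hN
  classical
  rw [Nat.card_eq_fintype_card, Nat.card_eq_fintype_card, Fintype.card_subtype]
  have hNf : (0 : ℝ) < N.factorial := by exact_mod_cast Nat.factorial_pos N
  set Θ := univ.filter (fun f : Fin N → Option Bool =>
        ε * N < (univ.filter (fun a => f a ≠ none)).card ∧
        ((univ.filter (fun a => f a = some true)).card : ℝ) ≤
          (univ.filter (fun a => f a = some false)).card + δ * N ∧
        ((univ.filter (fun a => f a = some false)).card : ℝ) ≤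
          (univ.filter (fun a => f a = some true)).card + δ * N) with hΘ
  let A : (Fin N → Option Bool) → Finset (Equiv.Perm (Fin N)) := fun f =>
    univ.filter (fun g => (hammingDist (f ∘ g.symm) (tau ∘ f) : ℝ) ≤ δ * N)
  have hA : ∀ f, (A f).card = (univ.filter (fun g : Equiv.Perm (Fin N) =>
        (hammingDist (f ∘ g) (tau ∘ f) : ℝ) ≤ δ * N)).card := by
    intro f
    refine Finset.card_bij (fun g _ => g.symm) ?_ ?_ ?_
    · intro g hg; simpa [A] using hg
    · intro a _ b _ h; exact Equiv.symm_bijective.injective h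
    · intro b hb
      refine ⟨b.symm, ?_, b.symm_symm⟩
      simpa [A] using hb
  have hsub : (univ.filter (fun p : ι → Equiv.Perm (Fin N) => ¬ Good i0 i1 ε δ N p)) ⊆
      Θ.biUnion (fun f => univ.filter (fun p : ι → Equiv.Perm (Fin N) =>
        p i0 ∈ A f ∧ p i1 ∈ A f)) := by
    intro p hp
    have hp' := (mem_filter.1 hp).2
    unfold Good at hp'
    push Not at hp'
    obtain ⟨f, h0, h1, h2⟩ := hp'
    rw [mem_biUnion]
    refine ⟨f, ?_, ?_⟩
    · rw [hΘ, mem_filter]
      refine ⟨mem_univ _, h2, ?_, ?_⟩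
      · have := balance f (p i0).symm true
        have h' : (((univ.filter (fun a => f a = some true)).card : ℕ) : ℝ) ≤
            (univ.filter (fun a => f a = some (!true))).card +
            (hammingDist (f ∘ (p i0).symm) (tau ∘ f) : ℝ) := by exact_mod_cast this
        simp only [Bool.not_true] at h'
        linarith
      · have := balance f (p i0).symm false
        have h' : (((univ.filter (fun a => f a = some false)).card : ℕ) : ℝ) ≤
            (univ.filter (fun a => f a = some (!false))).card +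
            (hammingDist (f ∘ (p i0).symm) (tau ∘ f) : ℝ) := by exact_mod_cast this
        simp only [Bool.not_false] at h'
        linarith
    · simp only [mem_filter, mem_univ, true_and, A]
      exact ⟨h0, h1⟩
  have hle : ((univ.filter (fun p : ι → Equiv.Perm (Fin N) => ¬ Good i0 i1 ε δ N p)).card : ℝ)
      ≤ (∑ f ∈ Θ, (((univ.filter (fun g : Equiv.Perm (Fin N) =>
        (hammingDist (f ∘ g) (tau ∘ f) : ℝ) ≤ δ * N)).card : ℝ) / (N.factorial : ℝ)) ^ 2) *
        Fintype.card (ι → Equiv.Perm (Fin N)) := by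
    have h1 : ((univ.filter (fun p : ι → Equiv.Perm (Fin N) => ¬ Good i0 i1 ε δ N p)).card : ℝ)
      ≤ ∑ f ∈ Θ, ((univ.filter (fun p : ι → Equiv.Perm (Fin N) =>
        p i0 ∈ A f ∧ p i1 ∈ A f)).card : ℝ) := by
      have := (card_le_card hsub).trans card_biUnion_le
      exact_mod_cast this
    refine h1.trans (le_of_eq ?_)
    rw [sum_mul]
    refine sum_congr rfl (fun f _ => ?_)
    rw [pair_prob i0 i1 hne (A f), hA f, Fintype.card_perm, Fintype.card_fin]
  refine hle.trans (mul_le_mul_of_nonneg_right ?_ (Nat.cast_nonneg _))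
  refine (sum_sq N ε δ hδ hδε hε1).trans (le_trans ?_ hN.le)
  have hN0 : (0:ℝ) ≤ N := Nat.cast_nonneg N
  have hm : (1 / 2 : ℝ) ^ (⌊ε * N / 4⌋₊) ≤ 2 * Real.exp (-(ε * Real.log 2 / 4 * N)) := by
    have h1 : ε * N / 4 - 1 ≤ (⌊ε * N / 4⌋₊ : ℝ) := by
      have := Nat.lt_floor_add_one (ε * N / 4)
      linarith
    have h2 : (1 / 2 : ℝ) ^ (⌊ε * N / 4⌋₊) = Real.exp (-(Real.log 2 * ⌊ε * N / 4⌋₊)) := by
      rw [← Real.rpow_natCast, Real.rpow_def_of_pos (by norm_num), one_div, Real.log_inv]
      congr 1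
      ring
    have h3 : (2:ℝ) = Real.exp (Real.log 2) := (Real.exp_log (by norm_num)).symm
    rw [h2]
    nth_rewrite 2 [h3]
    rw [← Real.exp_add]
    apply Real.exp_le_exp.2
    nlinarith
  have hexp : Real.exp (N * (-(δ * Real.log δ) + 3 * δ)) ^ 2 ≤
      Real.exp (ε * Real.log 2 / 8 * N) := by
    rw [← Real.exp_nat_mul]
    apply Real.exp_le_exp.2
    push_cast
    nlinarith
  calc Real.exp (N * (-(δ * Real.log δ) + 3 * δ)) ^ 2 *
        ((1 / 2 : ℝ) ^ (⌊ε * N / 4⌋₊) * (N + 1) ^ 3)
      ≤ Real.exp (ε * Real.log 2 / 8 * N) *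
        ((2 * Real.exp (-(ε * Real.log 2 / 4 * N))) * (N + 1) ^ 3) := by
        refine mul_le_mul hexp ?_ (by positivity) (Real.exp_pos _).le
        exact mul_le_mul_of_nonneg_right hm (by positivity)
    _ = 2 * (Real.exp (-(ε * Real.log 2 / 8 * N)) * (N + 1) ^ 3) := by
        have : Real.exp (-(ε * Real.log 2 / 8 * N)) = Real.exp (ε * Real.log 2 / 8 * N) *
            Real.exp (-(ε * Real.log 2 / 4 * N)) := by
          rw [← Real.exp_add]
          congr 1
          ring
        rw [this]
        ring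


open Filter Topology in
theorem diag {I : Type} [Countable I] (α : ℕ → Type) [∀ N, Nonempty (α N)]
    (R : I → ∀ N, α N → Prop)
    (h : ∀ s : Finset I, ∀ᶠ N in atTop, ∃ a : α N, ∀ i ∈ s, R i N a) :
    ∃ a : ∀ N, α N, ∀ i, ∀ᶠ N in atTop, R i N (a N) := by
  classical
  obtain ⟨f, hf⟩ := Countable.exists_injective_nat I
  let P : ℕ → ℕ → Prop := fun N J => ∃ a : α N, ∀ i, f i < J → R i N a
  have hP0 : ∀ N, P N 0 := fun N => ⟨Classical.arbitrary _, fun i hi => absurd hi (by omega)⟩
  have hg : ∀ N, P N (Nat.findGreatest (P N) N) := fun N =>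
    Nat.findGreatest_spec (P := P N) (m := 0) (Nat.zero_le _) (hP0 N)
  choose a ha using hg
  refine ⟨a, fun i => ?_⟩
  have hfin : {j : I | f j < f i + 1}.Finite :=
    Set.Finite.preimage (hf.injOn) (Set.finite_lt_nat (f i + 1))
  have h1 := h hfin.toFinset
  filter_upwards [h1, eventually_ge_atTop (f i + 1)] with N hN hN2
  have hPN : P N (f i + 1) := by
    obtain ⟨b, hb⟩ := hN
    exact ⟨b, fun j hj => hb j (by simpa using hj)⟩
  have h2 : f i + 1 ≤ Nat.findGreatest (P N) N := Nat.le_findGreatest hN2 hPN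
  exact ha N i (by omega)

open Filter Topology in
theorem union_bound {I : Type} (α : ℕ → Type) [∀ N, Fintype (α N)] [∀ N, Nonempty (α N)]
    (R : I → ∀ N, α N → Prop)
    (h : ∀ i, ∀ η : ℝ, 0 < η → ∀ᶠ N in atTop,
      (Nat.card {a : α N // ¬ R i N a} : ℝ) ≤ η * Nat.card (α N)) (s : Finset I) :
    ∀ᶠ N in atTop, ∃ a : α N, ∀ i ∈ s, R i N a := by
  classical
  have h1 : ∀ᶠ N in atTop, ∀ i ∈ s, (Nat.card {a : α N // ¬ R i N a} : ℝ) ≤
      (1 / (2 * (s.card + 1))) * Nat.card (α N) := by
    rw [Finset.eventually_all]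
    intro i _
    exact h i _ (by positivity)
  filter_upwards [h1] with N hN
  by_contra hcon
  push Not at hcon
  have hsub : (univ : Finset (α N)) ⊆ s.biUnion (fun i => univ.filter (fun a => ¬ R i N a)) := by
    intro a _
    obtain ⟨i, hi, hR⟩ := hcon a
    rw [mem_biUnion]
    exact ⟨i, hi, by simpa using hR⟩
  have h2 := (card_le_card hsub).trans card_biUnion_le
  have h3 : (Fintype.card (α N) : ℝ) ≤ ∑ i ∈ s, ((univ.filter (fun a => ¬ R i N a)).card : ℝ) := by
    rw [card_univ] at h2
    exact_mod_cast h2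
  have h4 : ∑ i ∈ s, ((univ.filter (fun a : α N => ¬ R i N a)).card : ℝ) ≤
      ∑ _i ∈ s, (1 / (2 * (s.card + 1))) * (Fintype.card (α N) : ℝ) := by
    refine sum_le_sum (fun i hi => ?_)
    have := hN i hi
    rw [Nat.card_eq_fintype_card, Nat.card_eq_fintype_card, Fintype.card_subtype] at this
    exact this
  rw [sum_const, nsmul_eq_mul] at h4
  have hpos : (0:ℝ) < Fintype.card (α N) := by exact_mod_cast Fintype.card_pos
  have h5 : (s.card : ℝ) * ((1 / (2 * (s.card + 1))) * (Fintype.card (α N) : ℝ)) ≤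
      (1 / 2) * Fintype.card (α N) := by
    have hs : (0:ℝ) ≤ s.card := Nat.cast_nonneg _
    have : (s.card : ℝ) * (1 / (2 * (s.card + 1))) ≤ 1 / 2 := by
      rw [mul_one_div, div_le_div_iff₀ (by positivity) (by norm_num)]
      linarith
    calc _ = ((s.card : ℝ) * (1 / (2 * (s.card + 1)))) * (Fintype.card (α N) : ℝ) := by ring
      _ ≤ _ := mul_le_mul_of_nonneg_right this hpos.le
  linarith

open Filter Topology in
/-- a sequence of tuples of permutations with few fixed points and no two-coloured regions -/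
theorem exists_perms {ι : Type} [Fintype ι] [DecidableEq ι] (i0 i1 : ι) (hne : i0 ≠ i1) :
    ∃ p : ∀ N : ℕ, ι → Equiv.Perm (Fin N),
      (∀ L : List (ι × Bool), FreeGroup.IsReduced L → L ≠ [] → ∀ ε : ℝ, 0 < ε →
        ∀ᶠ N : ℕ in atTop, (Nat.card {k : Fin N // ev (p N) L k = k} : ℝ) ≤ ε * N) ∧
      (∀ ε : ℝ, 0 < ε → ∃ δ : ℝ, 0 < δ ∧ ∀ᶠ N : ℕ in atTop, Good i0 i1 ε δ N (p N)) := by
  classical
  have hm1 : ∀ m : ℕ, (0:ℝ) < 1 / ((m:ℝ) + 1) := fun m => by positivity
  have hm2 : ∀ m : ℕ, (1 / ((m:ℝ) + 1)) ≤ 1 := by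
    intro m
    rw [div_le_one (by positivity)]
    have : (0:ℝ) ≤ m := Nat.cast_nonneg m
    linarith
  choose δ hδ0 hδ using fun m : ℕ => robust i0 i1 hne (1 / ((m:ℝ) + 1)) (hm1 m) (hm2 m)
  let I := ({L : List (ι × Bool) // FreeGroup.IsReduced L ∧ L ≠ []} × ℕ) ⊕ ℕ
  let R : I → ∀ N : ℕ, (ι → Equiv.Perm (Fin N)) → Prop := fun i N p =>
    match i with
    | Sum.inl (L, m) => (Nat.card {k : Fin N // ev p L.1 k = k} : ℝ) ≤ (1 / ((m:ℝ) + 1)) * N
    | Sum.inr m => Good i0 i1 (1 / ((m:ℝ) + 1)) (δ m) N p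
  have hR : ∀ i, ∀ η : ℝ, 0 < η → ∀ᶠ N in atTop,
      (Nat.card {a : ι → Equiv.Perm (Fin N) // ¬ R i N a} : ℝ)
        ≤ η * Nat.card (ι → Equiv.Perm (Fin N)) := by
    intro i η hη
    rcases i with ⟨⟨L, hL1, hL2⟩, m⟩ | m
    · exact fixed_small L hL1 hL2 _ η (hm1 m) hη
    · exact hδ m η hη
  obtain ⟨p, hp⟩ := diag (fun N => ι → Equiv.Perm (Fin N)) R
    (union_bound (fun N => ι → Equiv.Perm (Fin N)) R hR)
  have hsmall : ∀ ε : ℝ, 0 < ε → ∃ m : ℕ, 1 / ((m:ℝ) + 1) < ε :=
    fun ε hε => exists_nat_one_div_lt hε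
  refine ⟨p, ?_, ?_⟩
  · intro L hL1 hL2 ε hε
    obtain ⟨m, hm⟩ := hsmall ε hε
    filter_upwards [hp (Sum.inl (⟨L, hL1, hL2⟩, m))] with N hN
    refine le_trans hN ?_
    exact mul_le_mul_of_nonneg_right hm.le (Nat.cast_nonneg N)
  · intro ε hε
    obtain ⟨m, hm⟩ := hsmall ε hε
    refine ⟨δ m, hδ0 m, ?_⟩
    filter_upwards [hp (Sum.inr m)] with N hN
    intro f h0 h1
    refine le_trans (hN f h0 h1) ?_
    exact mul_le_mul_of_nonneg_right hm.le (Nat.cast_nonneg N)


/-! ## Nearest neighbour shifts of finite type -/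

/-- the nearest neighbour shift given by a relation on the alphabet -/
def NN {ι A : Type} (Rel : A → A → Prop) : Set (FreeGroup ι → A) :=
  {x | ∀ (s : FreeGroup ι) (i : ι), Rel (x s) (x (s * FreeGroup.of i))}

lemma isSFT_NN {ι A : Type} [Finite ι] [Finite A] [DecidableEq ι] (Rel : A → A → Prop) :
    IsSFT (NN (ι := ι) Rel) := by
  classical
  let D : ι → Finset (FreeGroup ι) := fun i => {1, FreeGroup.of i}
  have h1 : ∀ i, (1 : FreeGroup ι) ∈ D i := fun i => by simp [D]
  have h2 : ∀ i, FreeGroup.of i ∈ D i := fun i => by simp [D]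
  refine ⟨⋃ i : ι, (fun v : D i → A => (⟨D i, v⟩ : Pattern (FreeGroup ι) A)) ''
    {v | ¬ Rel (v ⟨1, h1 i⟩) (v ⟨FreeGroup.of i, h2 i⟩)}, ?_, ?_⟩
  · exact Set.finite_iUnion (fun i => Set.Finite.image _ (Set.toFinite _))
  · ext x
    simp only [NN, Set.mem_ofPred_eq, Set.mem_iUnion, Set.mem_image]
    constructor
    · rintro hx t p ⟨i, v, hv, rfl⟩ heq
      apply hv
      have e1 := congrFun heq ⟨1, h1 i⟩
      have e2 := congrFun heq ⟨FreeGroup.of i, h2 i⟩
      simp only [shift, mul_one] at e1 e2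
      rw [← e1, ← e2]
      exact hx _ _
    · intro hx s i
      by_contra hR
      refine hx s⁻¹ ⟨D i, fun u => shift s⁻¹ x u⟩ ⟨i, fun u => shift s⁻¹ x u, ?_, rfl⟩ rfl
      simpa [shift] using hR

section nn
variable {ι A K : Type} (Rel : A → A → Prop)

lemma good_edge (q : ι → Equiv.Perm K) (E : Finset (FreeGroup ι)) (ω : K → A) (i : ι)
    (h1 : (1 : FreeGroup ι) ∈ E) (hi : FreeGroup.of i ∈ E) (k : K)
    (hk : k ∈ goodPoints (FreeGroup.lift q) (NN Rel) E ω) :
    Rel (ω k) (ω ((q i).symm k)) := by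
  obtain ⟨x, hx, hw⟩ := hk
  have e1 := hw ⟨1, h1⟩
  have e2 := hw ⟨FreeGroup.of i, hi⟩
  simp only [inv_one, map_one, Equiv.Perm.coe_one, id_eq, map_inv, FreeGroup.lift_apply_of] at e1 e2
  have e3 := hx 1 i
  rw [one_mul] at e3
  rw [← e1] at e3
  rw [← e2] at e3
  exact e3

lemma good_of_exact (q : ι → Equiv.Perm K) (E : Finset (FreeGroup ι)) (ω : K → A)
    (h : ∀ (k : K) (i : ι), Rel (ω k) (ω ((q i).symm k))) (k : K) :
    k ∈ goodPoints (FreeGroup.lift q) (NN Rel) E ω := by
  refine ⟨fun s => ω (FreeGroup.lift q s⁻¹ k), ?_, fun s => rfl⟩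
  intro s i
  have : FreeGroup.lift q (s * FreeGroup.of i)⁻¹ k = (q i).symm (FreeGroup.lift q s⁻¹ k) := by
    rw [mul_inv_rev, map_mul, Equiv.Perm.mul_apply]
    simp only [map_inv, FreeGroup.lift_apply_of]
    rfl
  show Rel (ω (FreeGroup.lift q s⁻¹ k)) (ω (FreeGroup.lift q (s * FreeGroup.of i)⁻¹ k))
  rw [this]
  exact h _ _

lemma mem_micro_of_all {G : Type} [Group G] [Finite K] (π : G → Equiv.Perm K) (X : Set (G → A))
    (E : Finset G) (δ : ℝ) (hδ : 0 < δ) (ω : K → A) (h : ∀ k, k ∈ goodPoints π X E ω) :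
    ω ∈ microstates π X E δ := by
  have : goodPoints π X E ω = Set.univ := Set.eq_univ_of_forall h
  simp only [microstates, Set.mem_ofPred_eq, this, Set.ncard_univ]
  have : (0:ℝ) ≤ Nat.card K := Nat.cast_nonneg _
  nlinarith

end nn

/-! ## Sofic approximations from permutations -/

section approx

lemma ev_eq {ι K : Type} (p : ι → Equiv.Perm K) (L : List (ι × Bool)) (k : K) :
    ev p L k = FreeGroup.lift p (FreeGroup.mk L) k := by
  induction L with
  | nil => simp [ev, ← FreeGroup.one_eq_mk]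
  | cons l L ih =>
    have h : FreeGroup.lift p (FreeGroup.mk (l :: L)) =
        step p l * FreeGroup.lift p (FreeGroup.mk L) := by
      simp only [FreeGroup.lift_mk, List.map_cons, List.prod_cons, step]
    rw [h, Equiv.Perm.mul_apply, ← ih]
    rfl

/-- the sofic approximation given by a sequence of finite actions with few fixed points -/
def ofPerms {ι : Type} (K : ℕ → Type) (hf : ∀ n, Finite (K n)) (hn : ∀ n, Nonempty (K n))
    (q : ∀ n, ι → Equiv.Perm (K n))
    (hq : ∀ g : FreeGroup ι, g ≠ 1 → Tendsto (fun n =>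
      ((({k | FreeGroup.lift (q n) g k = k} : Set (K n)).ncard : ℝ) / Nat.card (K n)))
        atTop (𝓝 0)) : SoficApprox (FreeGroup ι) where
  K := K
  finite := hf
  nonempty := hn
  π := fun n => FreeGroup.lift (q n)
  mul_tendsto := by
    intro s t
    refine tendsto_const_nhds.congr (fun n => ?_)
    have := hf n
    have := hn n
    have h : ({k | FreeGroup.lift (q n) (s * t) k =
        FreeGroup.lift (q n) s (FreeGroup.lift (q n) t k)} : Set (K n)) = Set.univ := by
      ext k
      simp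
    rw [h, Set.ncard_univ]
    have : (Nat.card (K n) : ℝ) ≠ 0 := by exact_mod_cast Nat.card_pos.ne'
    exact (div_self this).symm
  free_tendsto := by
    intro s hs
    have h1 := (hq s hs).const_sub 1
    rw [sub_zero] at h1
    refine h1.congr (fun n => ?_)
    have := hf n
    have := hn n
    have h : ({k | FreeGroup.lift (q n) s k ≠ k} : Set (K n)) =
        ({k | FreeGroup.lift (q n) s k = k} : Set (K n))ᶜ := by
      ext k
      simp
    have hK : (Nat.card (K n) : ℝ) ≠ 0 := by exact_mod_cast Nat.card_pos.ne'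
    have h2 := Set.ncard_add_ncard_compl ({k | FreeGroup.lift (q n) s k = k} : Set (K n))
    rw [← h] at h2
    have h3 : (({k | FreeGroup.lift (q n) s k ≠ k} : Set (K n)).ncard : ℝ) =
        Nat.card (K n) - ({k | FreeGroup.lift (q n) s k = k} : Set (K n)).ncard := by
      rw [← h2]; push_cast; ring
    rw [h3, sub_div, div_self hK]

lemma lift_sum {ι K₁ K₂ : Type} (a : ι → Equiv.Perm K₁) (b : ι → Equiv.Perm K₂)
    (g : FreeGroup ι) :
    FreeGroup.lift (fun i => Equiv.sumCongr (a i) (b i)) g =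
      Equiv.sumCongr (FreeGroup.lift a g) (FreeGroup.lift b g) := by
  have h : FreeGroup.lift (fun i => Equiv.sumCongr (a i) (b i)) =
      (Equiv.Perm.sumCongrHom K₁ K₂).comp ((FreeGroup.lift a).prod (FreeGroup.lift b)) := by
    apply FreeGroup.ext_hom
    intro i
    simp [Equiv.Perm.sumCongr]
  rw [h]
  rfl

/-- flipping `Bool` -/
def flip2 {ι : Type} : ι → Equiv.Perm Bool := fun _ => Equiv.boolNot

lemma lift_prod {ι K : Type} (a : ι → Equiv.Perm K) (g : FreeGroup ι) (k : K) (b : Bool) :
    FreeGroup.lift (fun i => (a i).prodCongr Equiv.boolNot) g (k, b) =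
      (FreeGroup.lift a g k, FreeGroup.lift (flip2 (ι := ι)) g b) := by
  let φ : FreeGroup ι →* Equiv.Perm (K × Bool) :=
    { toFun := fun g => (FreeGroup.lift a g).prodCongr (FreeGroup.lift (flip2 (ι := ι)) g)
      map_one' := by ext x <;> simp
      map_mul' := by intro x y; ext z <;> simp }
  have h : FreeGroup.lift (fun i => (a i).prodCongr Equiv.boolNot) = φ := by
    apply FreeGroup.ext_hom
    intro i
    ext x <;> simp [φ, flip2]
  rw [h]
  rfl

end approx



/-! ## The sofic approximations -/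

section mix
variable {ι : Type}

/-- number of fixed points of the word `g` -/
noncomputable def fixN (p : ∀ N : ℕ, ι → Equiv.Perm (Fin N)) (g : FreeGroup ι) (N : ℕ) : ℕ :=
  ({k | FreeGroup.lift (p N) g k = k} : Set (Fin N)).ncard

def FixSmall (p : ∀ N : ℕ, ι → Equiv.Perm (Fin N)) : Prop :=
  ∀ g : FreeGroup ι, g ≠ 1 → ∀ ε : ℝ, 0 < ε → ∀ᶠ N : ℕ in atTop, (fixN p g N : ℝ) ≤ ε * N

lemma fixN_le (p : ∀ N : ℕ, ι → Equiv.Perm (Fin N)) (g : FreeGroup ι) (N : ℕ) :
    fixN p g N ≤ N := by
  have h1 : fixN p g N ≤ (Set.univ : Set (Fin N)).ncard :=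
    Set.ncard_le_ncard (Set.subset_univ _) (Set.toFinite _)
  rw [Set.ncard_univ, Nat.card_fin] at h1
  exact h1

lemma exists_good_perms [Fintype ι] [DecidableEq ι] (i0 i1 : ι) (hne : i0 ≠ i1) :
    ∃ p : ∀ N : ℕ, ι → Equiv.Perm (Fin N), FixSmall p ∧
      (∀ ε : ℝ, 0 < ε → ∃ δ : ℝ, 0 < δ ∧ ∀ᶠ N : ℕ in atTop, Good i0 i1 ε δ N (p N)) := by
  obtain ⟨p, h1, h2⟩ := exists_perms i0 i1 hne
  refine ⟨p, ?_, h2⟩
  intro g hg ε hε
  have hne : g.toWord ≠ [] := by
    intro h
    exact hg (FreeGroup.toWord_eq_nil_iff.1 h)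
  filter_upwards [h1 g.toWord FreeGroup.isReduced_toWord hne ε hε] with N hN
  refine le_trans (le_of_eq ?_) hN
  unfold fixN
  have hs : ({k | FreeGroup.lift (p N) g k = k} : Set (Fin N)) =
      {k | ev (p N) g.toWord k = k} := by
    ext k
    simp only [Set.mem_ofPred_eq]
    rw [ev_eq, FreeGroup.mk_toWord]
  rw [hs]
  rfl

/-- the single approximation -/
noncomputable def S1 (p : ∀ N : ℕ, ι → Equiv.Perm (Fin N)) (h : FixSmall p) :
    SoficApprox (FreeGroup ι) :=
  ofPerms (fun n => Fin (n + 1)) (fun _ => inferInstance) (fun _ => inferInstance)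
    (fun n => p (n + 1)) (by
      intro g hg
      rw [Metric.tendsto_nhds]
      intro ε hε
      have h1 := h g hg (ε / 2) (by positivity)
      have h2 := (tendsto_add_atTop_nat 1).eventually h1
      filter_upwards [h2] with n hn
      rw [Real.dist_0_eq_abs, abs_of_nonneg (by positivity), Nat.card_fin]
      have hpos : (0:ℝ) < ((n + 1 : ℕ) : ℝ) := by positivity
      rw [div_lt_iff₀ hpos]
      have : (fixN p g (n + 1) : ℝ) < ε * ((n + 1 : ℕ) : ℝ) := by
        refine lt_of_le_of_lt hn ?_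
        nlinarith
      exact this)

/-- generators of the double cover -/
def q2 (p : ∀ N : ℕ, ι → Equiv.Perm (Fin N)) (n : ℕ) : ι → Equiv.Perm (Fin (n + 1) × Bool) :=
  fun i => (p (n + 1) i).prodCongr Equiv.boolNot

lemma fix2_le (p : ∀ N : ℕ, ι → Equiv.Perm (Fin N)) (g : FreeGroup ι) (n : ℕ) :
    ({k | FreeGroup.lift (q2 p n) g k = k} : Set (Fin (n + 1) × Bool)).ncard
      ≤ 2 * fixN p g (n + 1) := by
  have hsub : ({k | FreeGroup.lift (q2 p n) g k = k} : Set (Fin (n + 1) × Bool)) ⊆
      ({k | FreeGroup.lift (p (n + 1)) g k = k} : Set (Fin (n + 1))) ×ˢ (Set.univ : Set Bool) := by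
    rintro ⟨k, b⟩ hk
    have hk' : FreeGroup.lift (q2 p n) g (k, b) = (k, b) := hk
    unfold q2 at hk'
    rw [lift_prod] at hk'
    simp only [Set.mem_prod, Set.mem_univ, and_true]
    exact (Prod.mk.inj hk').1
  have h1 := Set.ncard_le_ncard hsub (Set.toFinite _)
  rw [Set.ncard_prod, Set.ncard_univ] at h1
  simp only [Nat.card_eq_fintype_card, Fintype.card_bool] at h1
  unfold fixN
  omega

/-- the bipartite approximation -/
noncomputable def S2 (p : ∀ N : ℕ, ι → Equiv.Perm (Fin N)) (h : FixSmall p) :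
    SoficApprox (FreeGroup ι) :=
  ofPerms (fun n => Fin (n + 1) × Bool) (fun _ => inferInstance) (fun _ => inferInstance)
    (q2 p) (by
      intro g hg
      rw [Metric.tendsto_nhds]
      intro ε hε
      have h1 := h g hg (ε / 2) (by positivity)
      have h2 := (tendsto_add_atTop_nat 1).eventually h1
      filter_upwards [h2] with n hn
      rw [Real.dist_0_eq_abs, abs_of_nonneg (by positivity)]
      have hc : (Nat.card (Fin (n + 1) × Bool) : ℝ) = 2 * ((n + 1 : ℕ) : ℝ) := by
        rw [Nat.card_prod, Nat.card_fin]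
        simp only [Nat.card_eq_fintype_card, Fintype.card_bool]
        push_cast; ring
      rw [hc]
      have hpos : (0:ℝ) < ((n + 1 : ℕ) : ℝ) := by positivity
      rw [div_lt_iff₀ (by positivity)]
      have h3 := fix2_le p g n
      have h3' : (({k | FreeGroup.lift (q2 p n) g k = k} : Set (Fin (n + 1) × Bool)).ncard : ℝ)
          ≤ 2 * fixN p g (n + 1) := by exact_mod_cast h3
      refine lt_of_le_of_lt h3' ?_
      nlinarith)

/-- generators of the mixture -/
def qM (p : ∀ N : ℕ, ι → Equiv.Perm (Fin N)) (M : ℕ → ℕ) (n : ℕ) :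
    ι → Equiv.Perm ((Fin (n + 1) × Bool) ⊕ Fin (M n)) :=
  fun i => Equiv.sumCongr (q2 p n i) (p (M n) i)

lemma fixM_le (p : ∀ N : ℕ, ι → Equiv.Perm (Fin N)) (M : ℕ → ℕ) (g : FreeGroup ι) (n : ℕ) :
    ({k | FreeGroup.lift (qM p M n) g k = k} : Set ((Fin (n + 1) × Bool) ⊕ Fin (M n))).ncard
      ≤ 2 * fixN p g (n + 1) + fixN p g (M n) := by
  have hsub : ({k | FreeGroup.lift (qM p M n) g k = k} :
      Set ((Fin (n + 1) × Bool) ⊕ Fin (M n))) ⊆
      (Sum.inl '' {k | FreeGroup.lift (q2 p n) g k = k}) ∪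
      (Sum.inr '' {k | FreeGroup.lift (p (M n)) g k = k}) := by
    rintro (k | k) hk
    · have hk' : FreeGroup.lift (qM p M n) g (Sum.inl k) = Sum.inl k := hk
      unfold qM at hk'
      rw [lift_sum] at hk'
      left
      exact ⟨k, Sum.inl_injective hk', rfl⟩
    · have hk' : FreeGroup.lift (qM p M n) g (Sum.inr k) = Sum.inr k := hk
      unfold qM at hk'
      rw [lift_sum] at hk'
      right
      exact ⟨k, Sum.inr_injective hk', rfl⟩
  have h1 := Set.ncard_le_ncard hsub (Set.toFinite _)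
  refine h1.trans ((Set.ncard_union_le _ _).trans (Nat.add_le_add ?_ ?_))
  · exact (Set.ncard_image_le (Set.toFinite _)).trans (fix2_le p g n)
  · exact (Set.ncard_image_le (Set.toFinite _))

lemma cardM (M : ℕ → ℕ) (n : ℕ) :
    (Nat.card ((Fin (n + 1) × Bool) ⊕ Fin (M n)) : ℝ) = 2 * ((n:ℝ) + 1) + M n := by
  rw [Nat.card_sum, Nat.card_prod, Nat.card_fin, Nat.card_fin]
  simp only [Nat.card_eq_fintype_card, Fintype.card_bool]
  push_cast; ring

lemma card2 (n : ℕ) : (Nat.card (Fin (n + 1) × Bool) : ℝ) = 2 * ((n:ℝ) + 1) := by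
  rw [Nat.card_prod, Nat.card_fin]
  simp only [Nat.card_eq_fintype_card, Fintype.card_bool]
  push_cast; ring

/-- the mixed approximation -/
noncomputable def SM (p : ∀ N : ℕ, ι → Equiv.Perm (Fin N)) (h : FixSmall p) (M : ℕ → ℕ) :
    SoficApprox (FreeGroup ι) :=
  ofPerms (fun n => (Fin (n + 1) × Bool) ⊕ Fin (M n)) (fun _ => inferInstance)
    (fun _ => inferInstance) (qM p M) (by
      intro g hg
      rw [Metric.tendsto_nhds]
      intro ε hε
      have h1 := h g hg (ε / 4) (by positivity)
      obtain ⟨N₀, hN₀⟩ := eventually_atTop.1 h1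
      have hlim : Tendsto (fun n : ℕ => (n : ℝ)) atTop atTop := tendsto_natCast_atTop_atTop
      filter_upwards [eventually_ge_atTop N₀, hlim.eventually_gt_atTop (N₀ / (ε / 4))] with n hn hn2
      rw [Real.dist_0_eq_abs, abs_of_nonneg (by positivity), cardM]
      have hM0 : (0:ℝ) ≤ M n := Nat.cast_nonneg _
      have hn0 : (0:ℝ) ≤ n := Nat.cast_nonneg _
      rw [div_lt_iff₀ (by positivity)]
      have h3 : (({k | FreeGroup.lift (qM p M n) g k = k} :
          Set ((Fin (n + 1) × Bool) ⊕ Fin (M n))).ncard : ℝ)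
          ≤ 2 * fixN p g (n + 1) + fixN p g (M n) := by exact_mod_cast fixM_le p M g n
      have h4 : (fixN p g (n + 1) : ℝ) ≤ ε / 4 * ((n + 1 : ℕ) : ℝ) := hN₀ (n + 1) (by omega)
      have h5 : (fixN p g (M n) : ℝ) ≤ ε / 4 * M n + N₀ := by
        rcases le_total N₀ (M n) with h6 | h6
        · have := hN₀ (M n) h6
          have : (0:ℝ) ≤ N₀ := Nat.cast_nonneg _
          linarith
        · have h7 : (fixN p g (M n) : ℝ) ≤ M n := by exact_mod_cast fixN_le p g (M n)
          have h8 : (M n : ℝ) ≤ N₀ := by exact_mod_cast h6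
          have : 0 ≤ ε / 4 * M n := by positivity
          linarith
      have h6 : (N₀ : ℝ) < ε / 4 * n := by
        rw [div_lt_iff₀ (by positivity)] at hn2
        linarith
      push_cast at h4
      nlinarith)

end mix



/-! ## The shift of finite type -/

section sft
variable {ι : Type}

/-- the colour of a letter -/
def col {m : ℕ} : Option (Bool × Fin m) → Option Bool := Option.map Prod.fst

/-- neighbouring letters have opposite colours, or are both blank -/
def colRel (m : ℕ) : Option (Bool × Fin m) → Option (Bool × Fin m) → Prop :=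
  fun a b => col b = tau (col a)

lemma blank_good {K : Type} (m : ℕ) (q : ι → Equiv.Perm K) (E : Finset (FreeGroup ι)) (k : K) :
    k ∈ goodPoints (FreeGroup.lift q) (NN (colRel m)) E (fun _ => none) :=
  good_of_exact _ q E _ (fun _ _ => rfl) k

lemma micro_pos {K : Type} [Finite K] (m : ℕ) (q : ι → Equiv.Perm K) (E : Finset (FreeGroup ι))
    (δ : ℝ) (hδ : 0 < δ) :
    0 < (microstates (FreeGroup.lift q) (NN (colRel m)) E δ).ncard := by
  rw [Set.ncard_pos (Set.toFinite _)]
  exact ⟨fun _ => none, mem_micro_of_all _ _ _ _ hδ _ (blank_good m q E)⟩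

lemma micro2_ge (p : ∀ N : ℕ, ι → Equiv.Perm (Fin N)) (m n : ℕ) (E : Finset (FreeGroup ι))
    (δ : ℝ) (hδ : 0 < δ) :
    m ^ Nat.card (Fin (n + 1) × Bool) ≤
      (microstates (FreeGroup.lift (q2 p n)) (NN (colRel m)) E δ).ncard := by
  let F : (Fin (n + 1) × Bool → Fin m) → (Fin (n + 1) × Bool → Option (Bool × Fin m)) :=
    fun l k => some (k.2, l k)
  have hF : Function.Injective F := by
    intro l l' h
    funext k
    have := congrFun h k
    simp only [F, Option.some.injEq, Prod.mk.injEq, true_and] at this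
    exact this
  have h1 : (F '' Set.univ).ncard = m ^ Nat.card (Fin (n + 1) × Bool) := by
    rw [Set.ncard_image_of_injective _ hF, Set.ncard_univ, Nat.card_fun, Nat.card_fin]
  rw [← h1]
  refine Set.ncard_le_ncard ?_ (Set.toFinite _)
  rintro _ ⟨l, -, rfl⟩
  refine mem_micro_of_all _ _ _ _ hδ _ (fun k => good_of_exact _ _ _ _ ?_ k)
  intro k i
  simp [colRel, col, F, tau, q2]

lemma lift_qM_inl (p : ∀ N : ℕ, ι → Equiv.Perm (Fin N)) (M : ℕ → ℕ) (n : ℕ)
    (g : FreeGroup ι) (k : Fin (n + 1) × Bool) :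
    FreeGroup.lift (qM p M n) g (Sum.inl k) = Sum.inl (FreeGroup.lift (q2 p n) g k) := by
  unfold qM
  rw [lift_sum]
  rfl

lemma lift_qM_inr (p : ∀ N : ℕ, ι → Equiv.Perm (Fin N)) (M : ℕ → ℕ) (n : ℕ)
    (g : FreeGroup ι) (k : Fin (M n)) :
    FreeGroup.lift (qM p M n) g (Sum.inr k) = Sum.inr (FreeGroup.lift (p (M n)) g k) := by
  unfold qM
  rw [lift_sum]
  rfl

lemma microM_ge (p : ∀ N : ℕ, ι → Equiv.Perm (Fin N)) (M : ℕ → ℕ) (m n : ℕ)
    (E : Finset (FreeGroup ι)) (δ : ℝ) (hδ : 0 < δ) :
    (microstates (FreeGroup.lift (q2 p n)) (NN (colRel m)) E δ).ncard ≤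
      (microstates (FreeGroup.lift (qM p M n)) (NN (colRel m)) E δ).ncard := by
  let F : (Fin (n + 1) × Bool → Option (Bool × Fin m)) →
      ((Fin (n + 1) × Bool) ⊕ Fin (M n) → Option (Bool × Fin m)) :=
    fun l => Sum.elim l (fun _ => none)
  have hF : Function.Injective F := by
    intro l l' h
    funext k
    exact congrFun h (Sum.inl k)
  refine Set.ncard_le_ncard_of_injOn F ?_ (hF.injOn) (Set.toFinite _)
  intro l hl
  have hl' : (1 - δ) * Nat.card (Fin (n + 1) × Bool) ≤
    ((goodPoints (FreeGroup.lift (q2 p n)) (NN (colRel m)) E l).ncard : ℝ) := hl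
  have hsub : (Sum.inl '' (goodPoints (FreeGroup.lift (q2 p n)) (NN (colRel m)) E l)) ∪
      (Sum.inr '' (Set.univ : Set (Fin (M n)))) ⊆
      goodPoints (FreeGroup.lift (qM p M n)) (NN (colRel m)) E (F l) := by
    rintro x (⟨k, hk, rfl⟩ | ⟨k, -, rfl⟩)
    · have h1 : (fun s : E => F l (FreeGroup.lift (qM p M n) (s : FreeGroup ι)⁻¹ (Sum.inl k))) =
          (fun s : E => l (FreeGroup.lift (q2 p n) (s : FreeGroup ι)⁻¹ k)) := by
        funext s
        rw [lift_qM_inl]
        rfl
      show (fun s : E => F l (FreeGroup.lift (qM p M n) (s : FreeGroup ι)⁻¹ (Sum.inl k))) ∈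
        language E (NN (colRel m))
      rw [h1]
      exact hk
    · have h1 : (fun s : E => F l (FreeGroup.lift (qM p M n) (s : FreeGroup ι)⁻¹ (Sum.inr k))) =
          (fun s : E => (fun _ => none : Fin (M n) → Option (Bool × Fin m))
            (FreeGroup.lift (p (M n)) (s : FreeGroup ι)⁻¹ k)) := by
        funext s
        rw [lift_qM_inr]
        rfl
      show (fun s : E => F l (FreeGroup.lift (qM p M n) (s : FreeGroup ι)⁻¹ (Sum.inr k))) ∈
        language E (NN (colRel m))
      rw [h1]
      exact blank_good m (p (M n)) E k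
  have hcard := Set.ncard_le_ncard hsub (Set.toFinite _)
  rw [Set.ncard_union_eq, Set.ncard_image_of_injective _ Sum.inl_injective,
    Set.ncard_image_of_injective _ Sum.inr_injective, Set.ncard_univ, Nat.card_fin] at hcard
  · show (1 - δ) * _ ≤ _
    rw [cardM]
    rw [card2] at hl'
    have h2 : ((goodPoints (FreeGroup.lift (q2 p n)) (NN (colRel m)) E l).ncard : ℝ) + M n ≤
      ((goodPoints (FreeGroup.lift (qM p M n)) (NN (colRel m)) E (F l)).ncard : ℝ) := by
      exact_mod_cast hcard
    have h3 : (0:ℝ) ≤ M n := Nat.cast_nonneg _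
    nlinarith
  · rw [Set.disjoint_left]
    rintro x ⟨k, -, rfl⟩ ⟨k', -, h⟩
    exact absurd h (by simp)

lemma compl_le {K A G : Type} [Group G] [Finite K] (π : G → Equiv.Perm K) (X : Set (G → A))
    (E : Finset G) (δ : ℝ) (ω : K → A) (h : ω ∈ microstates π X E δ) :
    (((goodPoints π X E ω)ᶜ).ncard : ℝ) ≤ δ * Nat.card K := by
  have h1 := Set.ncard_add_ncard_compl (goodPoints π X E ω)
  have h2 : (1 - δ) * Nat.card K ≤ ((goodPoints π X E ω).ncard : ℝ) := h
  have h3 : ((goodPoints π X E ω).ncard : ℝ) + ((goodPoints π X E ω)ᶜ).ncard = Nat.card K := by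
    exact_mod_cast h1
  linarith

lemma mem_of_compl_le {K A G : Type} [Group G] [Finite K] (π : G → Equiv.Perm K)
    (X : Set (G → A)) (E : Finset G) (δ : ℝ) (ω : K → A)
    (h : (((goodPoints π X E ω)ᶜ).ncard : ℝ) ≤ δ * Nat.card K) :
    ω ∈ microstates π X E δ := by
  have h1 := Set.ncard_add_ncard_compl (goodPoints π X E ω)
  have h3 : ((goodPoints π X E ω).ncard : ℝ) + ((goodPoints π X E ω)ᶜ).ncard = Nat.card K := by
    exact_mod_cast h1
  show (1 - δ) * Nat.card K ≤ ((goodPoints π X E ω).ncard : ℝ)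
  linarith

lemma good_mono {K A G : Type} [Group G] (π : G → Equiv.Perm K)
    (X : Set (G → A)) (E E₁ : Finset G) (hE : E₁ ⊆ E) (ω : K → A) :
    goodPoints π X E ω ⊆ goodPoints π X E₁ ω := by
  rintro k ⟨x, hx, hw⟩
  exact ⟨x, hx, fun s => hw ⟨s, hE s.2⟩⟩

lemma hd_le {N : ℕ} (i : ι) (q : ι → Equiv.Perm (Fin N)) (f : Fin N → Option Bool)
    (B : Set (Fin N)) (h : ∀ k, k ∉ B → f ((q i).symm k) = tau (f k)) :
    hammingDist (f ∘ (q i).symm) (tau ∘ f) ≤ B.ncard := by
  classical
  unfold hammingDist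
  rw [← Set.ncard_coe_finset]
  refine Set.ncard_le_ncard ?_ (Set.toFinite _)
  intro k hk
  by_contra hkB
  simp only [Finset.coe_filter, Finset.mem_univ, true_and, Set.mem_ofPred_eq,
    Function.comp_apply] at hk
  exact hk (h k hkB)

lemma microM_le (p : ∀ N : ℕ, ι → Equiv.Perm (Fin N)) (M : ℕ → ℕ) (m n : ℕ) (i0 i1 : ι)
    (E E₁ : Finset (FreeGroup ι)) (hE : E₁ ⊆ E) (h1 : (1 : FreeGroup ι) ∈ E)
    (h0E : FreeGroup.of i0 ∈ E) (h1E : FreeGroup.of i1 ∈ E)
    (ε δ δ₁ δR : ℝ) (hε : 0 < ε) (hε1 : ε ≤ 1)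
    (hd1 : δ * (2 * ((n:ℝ) + 1) + M n) ≤ δ₁ * (2 * ((n:ℝ) + 1)))
    (hdR : δ * (2 * ((n:ℝ) + 1) + M n) ≤ δR * M n)
    (hgood : Good i0 i1 ε δR (M n) (p (M n))) :
    ((microstates (FreeGroup.lift (qM p M n)) (NN (colRel m)) E δ).ncard : ℝ) ≤
      (microstates (FreeGroup.lift (q2 p n)) (NN (colRel m)) E₁ δ₁).ncard *
        Real.exp (M n * (-(ε * Real.log ε) + (2 * m + 1) * ε)) := by
  classical
  let Ball : Set (Fin (M n) → Option (Bool × Fin m)) :=
    {f | (hammingDist f (fun _ => none) : ℝ) ≤ ε * M n}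
  have hBall : (Ball.ncard : ℝ) ≤ Real.exp (M n * (-(ε * Real.log ε) + (2 * m + 1) * ε)) := by
    have h := ball_exp (α := Fin (M n)) (β := Option (Bool × Fin m)) (fun _ => none) ε hε hε1
    simp only [Fintype.card_fin, Fintype.card_option, Fintype.card_prod, Fintype.card_bool] at h
    have h2 : Ball = ((univ.filter (fun f : Fin (M n) → Option (Bool × Fin m) =>
        (hammingDist f (fun _ => none) : ℝ) ≤ ε * M n) : Finset _) : Set _) := by
      ext f; simp [Ball]
    rw [h2, Set.ncard_coe_finset]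
    refine h.trans (le_of_eq ?_)
    push_cast
    rfl
  let F : ((Fin (n + 1) × Bool) ⊕ Fin (M n) → Option (Bool × Fin m)) →
      (Fin (n + 1) × Bool → Option (Bool × Fin m)) × (Fin (M n) → Option (Bool × Fin m)) :=
    fun ω => (ω ∘ Sum.inl, ω ∘ Sum.inr)
  have hF : Function.Injective F := by
    intro ω ω' h
    have ha := (Prod.mk.inj h).1
    have hb := (Prod.mk.inj h).2
    funext x
    rcases x with k | k
    · exact congrFun ha k
    · exact congrFun hb k
  have hmaps : ∀ ω ∈ microstates (FreeGroup.lift (qM p M n)) (NN (colRel m)) E δ,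
      F ω ∈ (microstates (FreeGroup.lift (q2 p n)) (NN (colRel m)) E₁ δ₁) ×ˢ Ball := by
    intro ω hω
    have hc := compl_le _ _ _ _ _ hω
    rw [cardM] at hc
    constructor
    · apply mem_of_compl_le
      rw [card2]
      refine le_trans ?_ (hc.trans hd1)
      have hsub : Sum.inl '' ((goodPoints (FreeGroup.lift (q2 p n)) (NN (colRel m)) E₁
          (F ω).1)ᶜ) ⊆ (goodPoints (FreeGroup.lift (qM p M n)) (NN (colRel m)) E ω)ᶜ := by
        rintro _ ⟨k, hk, rfl⟩ hgood'
        apply hk
        have h2 := good_mono _ _ _ _ hE _ hgood'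
        have h3 : (fun s : E₁ => ω (FreeGroup.lift (qM p M n) (s : FreeGroup ι)⁻¹
            (Sum.inl k))) ∈ language E₁ (NN (colRel m)) := h2
        have h4 : (fun s : E₁ => ω (FreeGroup.lift (qM p M n) (s : FreeGroup ι)⁻¹
            (Sum.inl k))) =
            (fun s : E₁ => (F ω).1 (FreeGroup.lift (q2 p n) (s : FreeGroup ι)⁻¹ k)) := by
          funext s
          rw [lift_qM_inl]
          rfl
        rw [h4] at h3
        exact h3
      have h5 := Set.ncard_le_ncard hsub (Set.toFinite _)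
      rw [Set.ncard_image_of_injective _ Sum.inl_injective] at h5
      exact_mod_cast h5
    · show (hammingDist (ω ∘ Sum.inr) (fun _ => none) : ℝ) ≤ ε * M n
      let θ : Fin (M n) → Option Bool := col ∘ ω ∘ Sum.inr
      have hinr : ((Sum.inr ⁻¹' ((goodPoints (FreeGroup.lift (qM p M n)) (NN (colRel m)) E ω)ᶜ) :
          Set (Fin (M n))).ncard : ℝ) ≤ δR * M n := by
        refine le_trans ?_ (hc.trans hdR)
        have h5 : (Sum.inr ⁻¹' ((goodPoints (FreeGroup.lift (qM p M n)) (NN (colRel m)) E ω)ᶜ) :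
          Set (Fin (M n))).ncard ≤
          ((goodPoints (FreeGroup.lift (qM p M n)) (NN (colRel m)) E ω)ᶜ).ncard := by
          rw [← Set.ncard_image_of_injective _ (Sum.inr_injective (α := Fin (n + 1) × Bool))]
          exact Set.ncard_le_ncard (Set.image_preimage_subset _ _) (Set.toFinite _)
        exact_mod_cast h5
      have hedge : ∀ i, FreeGroup.of i ∈ E → ∀ k : Fin (M n),
          k ∉ (Sum.inr ⁻¹' ((goodPoints (FreeGroup.lift (qM p M n)) (NN (colRel m)) E ω)ᶜ) :
          Set (Fin (M n))) → θ ((p (M n) i).symm k) = tau (θ k) := by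
        intro i hi k hk
        have hk' : Sum.inr k ∈ goodPoints (FreeGroup.lift (qM p M n)) (NN (colRel m)) E ω := by
          by_contra hcon
          exact hk hcon
        exact good_edge (colRel m) (qM p M n) E ω i h1 hi (Sum.inr k) hk'
      have hθ := hgood θ
        (le_trans (by exact_mod_cast hd_le i0 (p (M n)) θ _ (hedge i0 h0E)) hinr)
        (le_trans (by exact_mod_cast hd_le i1 (p (M n)) θ _ (hedge i1 h1E)) hinr)
      refine le_trans (le_of_eq ?_) hθ
      unfold hammingDist
      congr 2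
      ext k
      simp only [Finset.mem_filter, Finset.mem_univ, true_and, θ, Function.comp_apply, col,
        ne_eq, Option.map_eq_none_iff]
  have h2 := Set.ncard_le_ncard_of_injOn F hmaps hF.injOn (Set.toFinite _)
  rw [Set.ncard_prod] at h2
  calc ((microstates (FreeGroup.lift (qM p M n)) (NN (colRel m)) E δ).ncard : ℝ)
      ≤ (microstates (FreeGroup.lift (q2 p n)) (NN (colRel m)) E₁ δ₁).ncard * Ball.ncard := by
        exact_mod_cast h2
    _ ≤ _ := mul_le_mul_of_nonneg_left hBall (Nat.cast_nonneg _)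

end sft



/-! ## Entropy computations -/

section final
variable {ι : Type}

lemma S2_entropy_ge (p : ∀ N : ℕ, ι → Equiv.Perm (Fin N)) (h : FixSmall p) (m : ℕ) (hm : 0 < m) :
    ((Real.log m : ℝ) : EReal) ≤ entropy (S2 p h) (NN (colRel m)) := by
  unfold entropy
  refine le_iInf (fun E => le_iInf (fun δ => ?_))
  refine le_limsup_of_frequently_le ?_ (by isBoundedDefault)
  refine Eventually.frequently (Eventually.of_forall (fun n => ?_))
  have h1 : m ^ Nat.card (Fin (n + 1) × Bool) ≤
      (microstates ((S2 p h).π n) (NN (colRel m)) E δ).ncard := micro2_ge p m n E δ δ.2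
  have hpos : 0 < m ^ Nat.card (Fin (n + 1) × Bool) := by positivity
  unfold logCount
  rw [if_neg (lt_of_lt_of_le hpos h1).ne', EReal.coe_le_coe_iff]
  have hK : (0:ℝ) < Nat.card ((S2 p h).K n) := by
    have := (S2 p h).finite n
    have := (S2 p h).nonempty n
    exact_mod_cast Nat.card_pos
  rw [le_div_iff₀ hK]
  have h2 : ((m:ℝ) ^ Nat.card (Fin (n + 1) × Bool)) ≤
      ((microstates ((S2 p h).π n) (NN (colRel m)) E δ).ncard : ℝ) := by exact_mod_cast h1
  have h3 := Real.log_le_log (by positivity) h2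
  rw [Real.log_pow] at h3
  have h4 : (Nat.card ((S2 p h).K n) : ℝ) = Nat.card (Fin (n + 1) × Bool) := rfl
  rw [h4]
  linarith

lemma exists_eps (m : ℕ) (η : ℝ) (hη : 0 < η) : ∃ ε : ℝ, 0 < ε ∧ ε ≤ 1 ∧
    -(ε * Real.log ε) + (2 * m + 1) * ε ≤ η := by
  have hc : Continuous (fun δ : ℝ => -(δ * Real.log δ) + (2 * m + 1) * δ) := by
    have := Real.continuous_mul_log
    fun_prop
  have h0 : (fun δ : ℝ => -(δ * Real.log δ) + (2 * m + 1) * δ) 0 < η := by
    simp only [zero_mul, mul_zero, neg_zero, add_zero]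
    exact hη
  have h1 : ∀ᶠ δ in 𝓝 (0:ℝ), -(δ * Real.log δ) + (2 * m + 1) * δ < η :=
    hc.continuousAt.eventually_lt continuousAt_const h0
  have h2 : ∀ᶠ δ in 𝓝 (0:ℝ), δ < 1 := gt_mem_nhds one_pos
  have h3 : ∀ᶠ δ in 𝓝[>] (0:ℝ), 0 < δ := eventually_mem_nhdsWithin
  obtain ⟨δ, ⟨ha, hb⟩, hd⟩ :=
    (((h1.and h2).filter_mono nhdsWithin_le_nhds).and h3).exists
  exact ⟨δ, hd, hb.le, ha.le⟩

/-- sizes of the second part of the mixture -/
lemma exists_sizes (α : ℝ) (h0 : 0 < α) (h1 : α < 1) : ∃ M : ℕ → ℕ, Tendsto M atTop atTop ∧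
    Tendsto (fun n : ℕ => 2 * ((n:ℝ) + 1) / (2 * ((n:ℝ) + 1) + M n)) atTop (𝓝 α) := by
  set β : ℝ := 2 * (1 - α) / α with hβ
  have hβ0 : 0 < β := by
    rw [hβ]
    have : 0 < 1 - α := by linarith
    positivity
  have hlim1 : Tendsto (fun n : ℕ => (n : ℝ) + 1) atTop atTop :=
    tendsto_atTop_add_const_right _ _ tendsto_natCast_atTop_atTop
  refine ⟨fun n => ⌈β * ((n:ℝ) + 1)⌉₊, ?_, ?_⟩
  · refine tendsto_nat_ceil_atTop.comp ?_
    exact Tendsto.const_mul_atTop hβ0 hlim1
  · have h2 : Tendsto (fun n : ℕ => (⌈β * ((n:ℝ) + 1)⌉₊ : ℝ) / ((n:ℝ) + 1)) atTop (𝓝 β) :=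
      (tendsto_nat_ceil_mul_div_atTop hβ0.le).comp hlim1
    have h3 : Tendsto (fun n : ℕ => 2 / (2 + (⌈β * ((n:ℝ) + 1)⌉₊ : ℝ) / ((n:ℝ) + 1))) atTop
        (𝓝 (2 / (2 + β))) := by
      refine Tendsto.div tendsto_const_nhds (h2.const_add 2) ?_
      positivity
    have h4 : 2 / (2 + β) = α := by
      rw [hβ]
      field_simp
      ring
    rw [h4] at h3
    refine h3.congr (fun n => ?_)
    have : (0:ℝ) < (n:ℝ) + 1 := by positivity
    field_simp

theorem SM_entropy [DecidableEq ι] (i0 i1 : ι) (p : ∀ N : ℕ, ι → Equiv.Perm (Fin N))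
    (h : FixSmall p)
    (hgood : ∀ ε : ℝ, 0 < ε → ∃ δ : ℝ, 0 < δ ∧ ∀ᶠ N : ℕ in atTop, Good i0 i1 ε δ N (p N))
    (m : ℕ) (h2 : ℝ) (hh2 : 0 < h2) (he : entropy (S2 p h) (NN (colRel m)) = (h2 : EReal))
    (α : ℝ) (hα0 : 0 < α) (hα1 : α < 1) :
    ∃ M : ℕ → ℕ, entropy (SM p h M) (NN (colRel m)) = ((α * h2 : ℝ) : EReal) := by
  classical
  obtain ⟨M, hM, hratio⟩ := exists_sizes α hα0 hα1
  refine ⟨M, ?_⟩
  have hcM : ∀ n, (Nat.card ((SM p h M).K n) : ℝ) = 2 * ((n:ℝ) + 1) + M n := fun n => cardM M n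
  have hc2 : ∀ n, (Nat.card ((S2 p h).K n) : ℝ) = 2 * ((n:ℝ) + 1) := fun n => card2 n
  have hpos2 : ∀ n E δ, 0 < δ →
      0 < (microstates ((S2 p h).π n) (NN (colRel m)) E δ).ncard :=
    fun n E δ hδ => micro_pos m (q2 p n) E δ hδ
  have hposM : ∀ n E δ, 0 < δ →
      0 < (microstates ((SM p h M).π n) (NN (colRel m)) E δ).ncard :=
    fun n E δ hδ => micro_pos m (qM p M n) E δ hδ
  have htot : ∀ n : ℕ, (0:ℝ) < 2 * ((n:ℝ) + 1) + M n := fun n => by
    have : (0:ℝ) ≤ M n := Nat.cast_nonneg _
    positivity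
  apply entropy_eq_of _ _ _ hposM
  · intro η hη
    obtain ⟨E₁, δ₁, hδ₁, hE₁⟩ := upper_of_entropy (S2 p h) _ h2 hpos2 he (η / 4) (by positivity)
    obtain ⟨ε, hε, hε1, hεB⟩ := exists_eps m (η / 4) (by positivity)
    obtain ⟨δR, hδR, hR⟩ := hgood ε hε
    set δ : ℝ := min (δ₁ * (α / 2)) (δR * ((1 - α) / 2)) with hδ
    have hα' : 0 < 1 - α := by linarith
    have hδ0 : 0 < δ := lt_min (by positivity) (by positivity)
    refine ⟨E₁ ∪ {1, FreeGroup.of i0, FreeGroup.of i1}, δ, hδ0, ?_⟩
    have e1 := hratio.eventually_const_lt (show α / 2 < α by linarith)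
    have e2 := hratio.eventually_lt_const (show α < 1 - (1 - α) / 2 by linarith)
    have e3 : ∀ᶠ n : ℕ in atTop,
        (h2 + η / 4) * (2 * ((n:ℝ) + 1) / (2 * ((n:ℝ) + 1) + M n)) < α * h2 + η / 2 := by
      refine (hratio.const_mul (h2 + η / 4)).eventually_lt_const ?_
      nlinarith
    have e4 := hM.eventually hR
    filter_upwards [e1, e2, e3, e4, hE₁] with n h1 h2' h3 h4 h5
    rw [lt_div_iff₀ (htot n)] at h1
    rw [div_lt_iff₀ (htot n)] at h2'
    have hM0 : (0:ℝ) ≤ M n := Nat.cast_nonneg _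
    have hd1 : δ * (2 * ((n:ℝ) + 1) + M n) ≤ δ₁ * (2 * ((n:ℝ) + 1)) := by
      calc δ * (2 * ((n:ℝ) + 1) + M n) ≤ (δ₁ * (α / 2)) * (2 * ((n:ℝ) + 1) + M n) :=
            mul_le_mul_of_nonneg_right (min_le_left _ _) (htot n).le
        _ = δ₁ * (α / 2 * (2 * ((n:ℝ) + 1) + M n)) := by ring
        _ ≤ δ₁ * (2 * ((n:ℝ) + 1)) := mul_le_mul_of_nonneg_left h1.le hδ₁.le
    have hdR : δ * (2 * ((n:ℝ) + 1) + M n) ≤ δR * M n := by
      calc δ * (2 * ((n:ℝ) + 1) + M n) ≤ (δR * ((1 - α) / 2)) * (2 * ((n:ℝ) + 1) + M n) :=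
            mul_le_mul_of_nonneg_right (min_le_right _ _) (htot n).le
        _ = δR * ((1 - α) / 2 * (2 * ((n:ℝ) + 1) + M n)) := by ring
        _ ≤ δR * M n := mul_le_mul_of_nonneg_left (by linarith) hδR.le
    have hle := microM_le p M m n i0 i1 (E₁ ∪ {1, FreeGroup.of i0, FreeGroup.of i1}) E₁
      Finset.subset_union_left (by simp) (by simp) (by simp) ε δ δ₁ δR hε hε1 hd1 hdR h4
    have hc2pos : (0:ℝ) < ((microstates (FreeGroup.lift (q2 p n)) (NN (colRel m)) E₁ δ₁).ncard : ℝ) :=
      by exact_mod_cast micro_pos m (q2 p n) E₁ δ₁ hδ₁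
    have hcMpos : (0:ℝ) < ((microstates (FreeGroup.lift (qM p M n)) (NN (colRel m))
        (E₁ ∪ {1, FreeGroup.of i0, FreeGroup.of i1}) δ).ncard : ℝ) := by
      exact_mod_cast micro_pos m (qM p M n) _ δ hδ0
    have hlog := Real.log_le_log hcMpos hle
    rw [Real.log_mul hc2pos.ne' (Real.exp_pos _).ne', Real.log_exp] at hlog
    have h5' : Real.log ((microstates (FreeGroup.lift (q2 p n)) (NN (colRel m)) E₁ δ₁).ncard) ≤
        (h2 + η / 4) * (2 * ((n:ℝ) + 1)) := by
      have := h5
      rw [hc2] at this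
      exact this
    rw [← mul_div_assoc, div_lt_iff₀ (htot n)] at h3
    have h6 : (M n : ℝ) * (-(ε * Real.log ε) + (2 * m + 1) * ε) ≤ M n * (η / 4) :=
      mul_le_mul_of_nonneg_left hεB hM0
    rw [hcM]
    refine hlog.trans ?_
    have hn0 : (0:ℝ) ≤ n := Nat.cast_nonneg _
    nlinarith
  · intro E δ hδ η hη
    have hfreq := lower_of_entropy (S2 p h) _ h2 hpos2 he E δ hδ (η / 2) (by positivity)
    have e3 : ∀ᶠ n : ℕ in atTop,
        α * h2 - η < (h2 - η / 2) * (2 * ((n:ℝ) + 1) / (2 * ((n:ℝ) + 1) + M n)) := by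
      refine (hratio.const_mul (h2 - η / 2)).eventually_const_lt ?_
      nlinarith
    refine (hfreq.and_eventually e3).mono (fun n hn => ?_)
    obtain ⟨h5, h3⟩ := hn
    rw [hc2] at h5
    rw [hcM]
    rw [← mul_div_assoc, lt_div_iff₀ (htot n)] at h3
    have hle := microM_ge p M m n E δ hδ
    have hc2pos : (0:ℝ) < ((microstates (FreeGroup.lift (q2 p n)) (NN (colRel m)) E δ).ncard : ℝ) :=
      by exact_mod_cast micro_pos m (q2 p n) E δ hδ
    have hlog := Real.log_le_log hc2pos (by exact_mod_cast hle :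
      ((microstates (FreeGroup.lift (q2 p n)) (NN (colRel m)) E δ).ncard : ℝ) ≤
      ((microstates (FreeGroup.lift (qM p M n)) (NN (colRel m)) E δ).ncard : ℝ))
    exact h3.le.trans (h5.trans hlog)

/-- value `0`: the full shift on one letter -/
lemma zero_value (S : SoficApprox (FreeGroup ι)) :
    entropy S (Set.univ : Set (FreeGroup ι → Unit)) = ((0:ℝ) : EReal) := by
  have hm : ∀ n E (δ : {δ : ℝ // 0 < δ}),
      logCount (microstates (S.π n) (Set.univ : Set (FreeGroup ι → Unit)) E δ).ncard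
        (Nat.card (S.K n)) = ((0:ℝ) : EReal) := by
    intro n E δ
    have := S.finite n
    have h1 : microstates (S.π n) (Set.univ : Set (FreeGroup ι → Unit)) E δ = Set.univ := by
      apply Set.eq_univ_of_forall
      intro ω
      refine mem_micro_of_all _ _ _ _ δ.2 _ (fun k => ?_)
      exact ⟨fun _ => (), Set.mem_univ _, fun s => rfl⟩
    rw [h1, Set.ncard_univ]
    have h2 : Nat.card (S.K n → Unit) = 1 := by
      rw [Nat.card_unique]
    rw [h2]
    unfold logCount
    simp
  unfold entropy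
  simp only [hm, limsup_const]
  have : Nonempty {δ : ℝ // 0 < δ} := ⟨⟨1, one_pos⟩⟩
  simp

lemma isSFT_univ {G A : Type} [Group G] : IsSFT (Set.univ : Set (G → A)) :=
  ⟨∅, Set.finite_empty, by ext x; simp⟩

/-- value `-∞`: proper two-colourings over the random approximation -/
lemma bot_value [DecidableEq ι] (i0 i1 : ι) (p : ∀ N : ℕ, ι → Equiv.Perm (Fin N))
    (h : FixSmall p)
    (hgood : ∀ ε : ℝ, 0 < ε → ∃ δ : ℝ, 0 < δ ∧ ∀ᶠ N : ℕ in atTop, Good i0 i1 ε δ N (p N)) :
    entropy (S1 p h) (NN (fun a b : Bool => b = !a)) = ⊥ := by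
  classical
  obtain ⟨δ, hδ, hR⟩ := hgood (1 / 2) (by norm_num)
  have hR' := (tendsto_add_atTop_nat 1).eventually hR
  have key : ∀ᶠ n in atTop, logCount (microstates ((S1 p h).π n) (NN (fun a b : Bool => b = !a))
      {1, FreeGroup.of i0, FreeGroup.of i1} δ).ncard (Nat.card ((S1 p h).K n)) = ⊥ := by
    filter_upwards [hR'] with n hn
    have hempty : microstates (FreeGroup.lift (p (n + 1))) (NN (fun a b : Bool => b = !a))
      {1, FreeGroup.of i0, FreeGroup.of i1} δ = ∅ := by
      rw [Set.eq_empty_iff_forall_notMem]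
      intro ω hω
      have hc := compl_le _ _ _ _ _ hω
      rw [Nat.card_fin] at hc
      let θ : Fin (n + 1) → Option Bool := some ∘ ω
      have hedge : ∀ i, FreeGroup.of i ∈
          ({1, FreeGroup.of i0, FreeGroup.of i1} : Finset (FreeGroup ι)) →
          ∀ k : Fin (n + 1), k ∉ (goodPoints (FreeGroup.lift (p (n + 1)))
            (NN (fun a b : Bool => b = !a)) {1, FreeGroup.of i0, FreeGroup.of i1} ω)ᶜ →
          θ ((p (n + 1) i).symm k) = tau (θ k) := by
        intro i hi k hk
        have hk' : k ∈ goodPoints (FreeGroup.lift (p (n + 1)))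
            (NN (fun a b : Bool => b = !a)) {1, FreeGroup.of i0, FreeGroup.of i1} ω := by
          by_contra hcon
          exact hk hcon
        have h3 := good_edge (fun a b : Bool => b = !a) (p (n + 1)) _ ω i (by simp) hi k hk'
        simp only [θ, Function.comp_apply, tau, Option.map_some]
        rw [h3]
      have hθ := hn θ
        (le_trans (by exact_mod_cast hd_le i0 (p (n + 1)) θ _ (hedge i0 (by simp))) hc)
        (le_trans (by exact_mod_cast hd_le i1 (p (n + 1)) θ _ (hedge i1 (by simp))) hc)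
      have hall : (univ.filter (fun a => θ a ≠ none)) = (univ : Finset (Fin (n + 1))) := by
        ext a; simp [θ]
      rw [hall, Finset.card_univ, Fintype.card_fin] at hθ
      have : (0:ℝ) < ((n + 1 : ℕ) : ℝ) := by positivity
      linarith
    have hempty' : microstates ((S1 p h).π n) (NN (fun a b : Bool => b = !a))
      {1, FreeGroup.of i0, FreeGroup.of i1} δ = ∅ := hempty
    rw [hempty', Set.ncard_empty]
    unfold logCount
    simp
  apply le_bot_iff.1
  unfold entropy
  refine (iInf_le _ {1, FreeGroup.of i0, FreeGroup.of i1}).trans ((iInf_le _ ⟨δ, hδ⟩).trans ?_)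
  rw [limsup_congr key]
  simp

lemma two_col_nonempty : (NN (ι := ι) (fun a b : Bool => b = !a)).Nonempty := by
  refine ⟨fun s => FreeGroup.lift (flip2 (ι := ι)) s⁻¹ true, ?_⟩
  intro s i
  show FreeGroup.lift (flip2 (ι := ι)) (s * FreeGroup.of i)⁻¹ true =
    !(FreeGroup.lift (flip2 (ι := ι)) s⁻¹ true)
  rw [mul_inv_rev, map_mul, Equiv.Perm.mul_apply]
  simp only [map_inv, FreeGroup.lift_apply_of]
  rfl

end final

/-- **Determination of `E_r`.** For every `r ≥ 2` the set of sofic entropies of shifts of finite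
type over the free group of rank `r` is `{-∞} ∪ [0, ∞)`, and the same values are attained by
nonempty shifts of finite type. -/
theorem result (r : ℕ) (hr : 2 ≤ r) :
    entropySet r = {⊥} ∪ {h | ∃ c : ℝ, 0 ≤ c ∧ h = (c : EReal)} ∧
    entropySetNonempty r = {⊥} ∪ {h | ∃ c : ℝ, 0 ≤ c ∧ h = (c : EReal)} := by
  have hsub : entropySetNonempty r ⊆ entropySet r := by
    rintro h ⟨A, hA, S, X, hX, -, he⟩
    exact ⟨A, hA, S, X, hX, he⟩
  have hup : entropySet r ⊆ {⊥} ∪ {h | ∃ c : ℝ, 0 ≤ c ∧ h = (c : EReal)} := by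
    rintro h ⟨A, hA, S, X, hX, rfl⟩
    rcases entropy_mem S X with h1 | h1
    · left; exact h1
    · right; exact h1
  have hlow : {⊥} ∪ {h | ∃ c : ℝ, 0 ≤ c ∧ h = (c : EReal)} ⊆ entropySetNonempty r := by
    let i0 : Fin r := ⟨0, by omega⟩
    let i1 : Fin r := ⟨1, by omega⟩
    have hne : i0 ≠ i1 := by simp [i0, i1]
    obtain ⟨p, hfix, hgood⟩ := exists_good_perms i0 i1 hne
    rintro h (h1 | ⟨c, hc, rfl⟩)
    · rw [Set.mem_singleton_iff] at h1
      subst h1
      exact ⟨Bool, inferInstance, S1 p hfix, _, isSFT_NN _, two_col_nonempty,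
        bot_value i0 i1 p hfix hgood⟩
    · rcases hc.eq_or_lt with h0 | h0
      · subst h0
        exact ⟨Unit, inferInstance, S1 p hfix, Set.univ, isSFT_univ, Set.univ_nonempty,
          zero_value _⟩
      · obtain ⟨m, hm⟩ := exists_nat_gt (Real.exp c)
        have hm0 : (0:ℝ) < m := (Real.exp_pos c).trans hm
        have hm0' : 0 < m := by exact_mod_cast hm0
        have hlog : c < Real.log m := (Real.lt_log_iff_exp_lt hm0).2 hm
        have hge := S2_entropy_ge p hfix m hm0'
        rcases entropy_mem (S2 p hfix) (NN (colRel m)) with h1 | ⟨h2, hh2, he⟩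
        · rw [h1] at hge
          exact absurd hge (not_le.2 (EReal.bot_lt_coe _))
        · rw [he, EReal.coe_le_coe_iff] at hge
          have hh2' : 0 < h2 := by linarith
          have hα0 : 0 < c / h2 := by positivity
          have hα1 : c / h2 < 1 := by rw [div_lt_one hh2']; linarith
          obtain ⟨M, hM⟩ := SM_entropy i0 i1 p hfix hgood m h2 hh2' he (c / h2) hα0 hα1
          rw [div_mul_cancel₀ _ hh2'.ne'] at hM
          exact ⟨Option (Bool × Fin m), inferInstance, SM p hfix M, NN (colRel m), isSFT_NN _,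
            ⟨fun _ => none, fun _ _ => rfl⟩, hM⟩
  exact ⟨Set.Subset.antisymm hup (hlow.trans hsub),
    Set.Subset.antisymm (hsub.trans hup) hlow⟩

end Pool.Agent.Results.MP_6ea370_an.EntropySet
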